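import Mathlib

/-!
# Definitions for the quadratic uniformity threshold (Brown-Erdős-Sós problem)

`r` is the uniformity, `e` the number of lines (edges) of the forbidden configurations,
`H` a set of lines on the finite vertex set `V`.
-/

set_option autoImplicit false

namespace Pool.Agent.Helper71.QU

open Finset

variable {V : Type*} [DecidableEq V]

/-- The union of a set of lines. -/
def U (S : Finset (Finset V)) : Finset V := S.biUnion id

/-- `H` is a linear `r`-graph. -/
structure Lin (r : ℕ) (H : Finset (Finset V)) : Prop where
  unif : ∀ A ∈ H, A.card = r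
  lin : ∀ A ∈ H, ∀ B ∈ H, A ≠ B → (A ∩ B).card ≤ 1

/-- Any `e` lines of `H` span more than `(r - 2) e + 3` points. -/
def Free (r e : ℕ) (H : Finset (Finset V)) : Prop :=
  ∀ S ⊆ H, S.card = e → (r - 2) * e + 3 < (U S).card

/-- The excess `|U S| - (r - 2) |S|`. -/
def f (r : ℕ) (S : Finset (Finset V)) : ℤ := ((U S).card : ℤ) - ((r : ℤ) - 2) * (S.card : ℤ)

/-- Two different lines with a common point. -/
def Meets (A B : Finset V) : Prop := A ≠ B ∧ (A ∩ B).Nonempty

/-- Three pairwise meeting lines without a common point. -/
def Tri (A B C : Finset V) : Prop :=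
  Meets A B ∧ Meets B C ∧ Meets A C ∧ A ∩ B ∩ C = ∅

/-- One step between ordered pairs of meeting lines of `H`: exchange the two lines, or replace
the second line by the third line of a triangle. -/
inductive Step (H : Finset (Finset V)) : Finset V × Finset V → Finset V × Finset V → Prop
  | swap {A B : Finset V} : A ∈ H → B ∈ H → Meets A B → Step H (A, B) (B, A)
  | tri {A B C : Finset V} : A ∈ H → B ∈ H → C ∈ H → Tri A B C → Step H (A, B) (A, C)

/-- The equivalence relation generated by `Step`. -/
def Cls (H : Finset (Finset V)) (p q : Finset V × Finset V) : Prop :=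
  Relation.ReflTransGen (Step H) p q

/-- Sets of lines built up from `{A, B}` by adding third lines of triangles with two lines in
the set which form a pair in the class of `(A, B)`. -/
inductive Built (H : Finset (Finset V)) (A B : Finset V) : Finset (Finset V) → Prop
  | base : Built H A B {A, B}
  | step {P : Finset (Finset V)} {C D D' : Finset V} : Built H A B P → D ∈ P → D' ∈ P → C ∈ H →
      Cls H (A, B) (D, D') → Tri C D D' → Built H A B (insert C P)

open Classical in
/-- The ordered pairs of meeting lines of `H`. -/
noncomputable def cherries (H : Finset (Finset V)) : Finset (Finset V × Finset V) :=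
  (H ×ˢ H).filter (fun p => Meets p.1 p.2)

open Classical in
/-- The class of `p`. -/
noncomputable def cls (H : Finset (Finset V)) (p : Finset V × Finset V) :
    Finset (Finset V × Finset V) :=
  (cherries H).filter (fun q => Cls H p q)

open Classical in
/-- The lines of the class of `p`. -/
noncomputable def Lns (H : Finset (Finset V)) (p : Finset V × Finset V) : Finset (Finset V) :=
  H.filter (fun C => ∃ D, Cls H p (C, D))

open Classical in
/-- The third lines of the triangles of `H` through the ordered pair `p`. -/
noncomputable def thirds (H : Finset (Finset V)) (p : Finset V × Finset V) :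
    Finset (Finset V) :=
  H.filter (fun C => Tri p.1 p.2 C)

/-- Every nonempty set of lines inside a class has excess at least `a`. -/
def MinF (r : ℕ) (a : ℤ) (H : Finset (Finset V)) : Prop :=
  ∀ p ∈ cherries H, ∀ R ⊆ Lns H p, R.Nonempty → a ≤ f r R

/-- The number of lines through a point. -/
def dg (H : Finset (Finset V)) (x : V) : ℕ := (H.filter (fun A => x ∈ A)).card

/-- Adjacency in the shadow graph. -/
def Adj (H : Finset (Finset V)) (x y : V) : Prop := x ≠ y ∧ ∃ A ∈ H, x ∈ A ∧ y ∈ A

open Classical in
/-- The number of common neighbours in the shadow graph. -/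
noncomputable def codeg [Fintype V] (H : Finset (Finset V)) (x y : V) : ℕ :=
  (univ.filter (fun p => Adj H x p ∧ Adj H y p)).card

open Classical in
/-- The number of ordered triples of pairwise adjacent points of the shadow graph. -/
noncomputable def X3 [Fintype V] (H : Finset (Finset V)) : ℕ :=
  (univ.filter (fun t : V × V × V => Adj H t.1 t.2.1 ∧ Adj H t.1 t.2.2 ∧ Adj H t.2.1 t.2.2)).card

end Pool.Agent.Helper71.QU
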