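import Mathlib
import Pool.Agent.Helper71.QU.Defs

/-!
# Averages over classes, and incidence sums, for module FIN
-/

set_option autoImplicit false

namespace Pool.Agent.Helper71.QU

open Finset

section Average

variable {V β : Type*} [Fintype V] [DecidableEq β] (π : V → β)

/-- The class of `x`. -/
def fin_Q (x : V) : Finset V := univ.filter (fun y => π y = π x)

/-- The average of `g` over the class of `x`. -/
noncomputable def fin_av (g : V → ℝ) (x : V) : ℝ := (∑ y ∈ fin_Q π x, g y) / (fin_Q π x).card

lemma fin_mem_Q {x y : V} : y ∈ fin_Q π x ↔ π y = π x := by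
  simp [fin_Q]

lemma fin_self_mem (x : V) : x ∈ fin_Q π x := by
  simp [fin_Q]

lemma fin_Q_pos (x : V) : (0 : ℝ) < (fin_Q π x).card := by
  exact_mod_cast card_pos.2 ⟨x, fin_self_mem π x⟩

lemma fin_Q_congr {x y : V} (h : π x = π y) : fin_Q π x = fin_Q π y := by
  ext z; simp [fin_Q, h]

lemma fin_av_congr (g : V → ℝ) {x y : V} (h : π x = π y) : fin_av π g x = fin_av π g y := by
  unfold fin_av
  rw [fin_Q_congr π h]

/-- The averaging operator is symmetric. -/
lemma fin_av_symm (g h : V → ℝ) : ∑ x, fin_av π g x * h x = ∑ x, g x * fin_av π h x := by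
  classical
  have key : ∀ g h : V → ℝ, ∑ x, fin_av π g x * h x =
      ∑ x, ∑ y, if π y = π x then g y * h x / (fin_Q π x).card else 0 := by
    intro g h
    apply sum_congr rfl
    intro x _
    unfold fin_av
    rw [← sum_filter]
    change _ = ∑ y ∈ fin_Q π x, _
    rw [div_mul_eq_mul_div, sum_mul, sum_div]
  rw [key g h, sum_comm]
  have e2 : ∑ x, g x * fin_av π h x = ∑ x, fin_av π h x * g x := by
    apply sum_congr rfl
    intros
    ring
  rw [e2, key h g]
  apply sum_congr rfl
  intro x _
  apply sum_congr rfl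
  intro y _
  by_cases hxy : π x = π y
  · rw [if_pos hxy, if_pos hxy.symm, fin_Q_congr π hxy]
    ring
  · rw [if_neg hxy, if_neg (fun h => hxy h.symm)]

lemma fin_av_one : fin_av π (fun _ => (1 : ℝ)) = fun _ => 1 := by
  funext x
  unfold fin_av
  rw [sum_const, nsmul_eq_mul, mul_one, div_self (fin_Q_pos π x).ne']

lemma fin_sum_av (g : V → ℝ) : ∑ x, fin_av π g x = ∑ x, g x := by
  have h := fin_av_symm π g (fun _ => 1)
  rw [fin_av_one] at h
  simpa using h

lemma fin_av_mono {g h : V → ℝ} (hgh : ∀ x, g x ≤ h x) (x : V) :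
    fin_av π g x ≤ fin_av π h x := by
  unfold fin_av
  exact div_le_div_of_nonneg_right (sum_le_sum fun y _ => hgh y) (fin_Q_pos π x).le

lemma fin_av_nonneg {g : V → ℝ} (hg : ∀ x, 0 ≤ g x) (x : V) : 0 ≤ fin_av π g x := by
  unfold fin_av
  exact div_nonneg (sum_nonneg fun y _ => hg y) (fin_Q_pos π x).le

lemma fin_av_add (g h : V → ℝ) (x : V) :
    fin_av π (fun y => g y + h y) x = fin_av π g x + fin_av π h x := by
  unfold fin_av
  rw [sum_add_distrib, add_div]

lemma fin_av_sub (g h : V → ℝ) (x : V) :
    fin_av π (fun y => g y - h y) x = fin_av π g x - fin_av π h x := by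
  unfold fin_av
  rw [sum_sub_distrib, sub_div]

lemma fin_av_smul (c : ℝ) (g : V → ℝ) (x : V) :
    fin_av π (fun y => c * g y) x = c * fin_av π g x := by
  unfold fin_av
  rw [← mul_sum, mul_div_assoc]

lemma fin_av_const (c : ℝ) (x : V) : fin_av π (fun _ => c) x = c := by
  have h := fin_av_smul π c (fun _ => 1) x
  rw [fin_av_one] at h
  simpa using h

lemma fin_av_abs (g : V → ℝ) (x : V) : |fin_av π g x| ≤ fin_av π (fun y => |g y|) x := by
  unfold fin_av
  rw [abs_div, abs_of_pos (fin_Q_pos π x)]
  exact div_le_div_of_nonneg_right (abs_sum_le_sum_abs _ _) (fin_Q_pos π x).le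

lemma fin_sum_av_abs (g : V → ℝ) : ∑ x, |fin_av π g x| ≤ ∑ x, |g x| := by
  refine (sum_le_sum fun x _ => fin_av_abs π g x).trans ?_
  rw [fin_sum_av]

lemma fin_av_sum {ι : Type*} (s : Finset ι) (g : ι → V → ℝ) (x : V) :
    fin_av π (fun y => ∑ i ∈ s, g i y) x = ∑ i ∈ s, fin_av π (g i) x := by
  unfold fin_av
  rw [sum_comm, sum_div]

/-- A function of the class is fixed by averaging. -/
lemma fin_av_of_class (a : β → ℝ) (x : V) : fin_av π (fun y => a (π y)) x = a (π x) := by
  have h : ∑ y ∈ fin_Q π x, a (π y) = ∑ y ∈ fin_Q π x, a (π x) := by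
    apply sum_congr rfl
    intro y hy
    rw [(fin_mem_Q π).1 hy]
  unfold fin_av
  rw [div_eq_iff (fin_Q_pos π x).ne', h, sum_const, nsmul_eq_mul, mul_comm]

/-- The sum of squares of the averages. -/
lemma fin_sum_av_sq (g : V → ℝ) : ∑ x, fin_av π g x ^ 2 = ∑ x, g x * fin_av π g x := by
  have h := fin_av_symm π g (fin_av π g)
  have h2 : ∀ x, fin_av π (fin_av π g) x = fin_av π g x := by
    intro x
    have h3 : ∑ y ∈ fin_Q π x, fin_av π g y = ∑ y ∈ fin_Q π x, fin_av π g x := by
      apply sum_congr rfl
      intro y hy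
      exact fin_av_congr π g ((fin_mem_Q π).1 hy)
    change (∑ y ∈ fin_Q π x, fin_av π g y) / (fin_Q π x).card = fin_av π g x
    rw [div_eq_iff (fin_Q_pos π x).ne', h3, sum_const, nsmul_eq_mul, mul_comm]
  simp only [h2] at h
  rw [← h]
  apply sum_congr rfl
  intros
  ring

/-- The sum of the inverse class sizes is at most the number of classes. -/
lemma fin_sum_inv [Fintype β] : ∑ x : V, 1 / ((fin_Q π x).card : ℝ) ≤ Fintype.card β := by
  classical
  rw [← sum_fiberwise_of_maps_to (s := univ) (t := (univ : Finset β)) (g := π)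
    (fun _ _ => mem_univ _)]
  calc ∑ b : β, ∑ x ∈ univ.filter (fun x => π x = b), 1 / ((fin_Q π x).card : ℝ)
      ≤ ∑ b : β, (1 : ℝ) := by
        apply sum_le_sum
        intro b _
        rcases (univ.filter (fun x => π x = b)).eq_empty_or_nonempty with h | h
        · rw [h]; simp
        · have hcard : (0 : ℝ) < ((univ.filter (fun x => π x = b)).card : ℝ) := by
            exact_mod_cast card_pos.2 h
          have : ∀ x ∈ univ.filter (fun x => π x = b), 1 / ((fin_Q π x).card : ℝ) =
              1 / ((univ.filter (fun x => π x = b)).card : ℝ) := by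
            intro x hx
            have hx' : π x = b := by simpa using hx
            have : fin_Q π x = univ.filter (fun x => π x = b) := by
              ext z; simp [fin_Q, hx']
            rw [this]
          rw [sum_congr rfl this, sum_const, nsmul_eq_mul, mul_one_div, div_self hcard.ne']
    _ = Fintype.card β := by simp

end Average

end Pool.Agent.Helper71.QU
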