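import Mathlib
import Pool.Agent.Helper71.QU.Defs

set_option autoImplicit false

namespace Pool.Agent.Helper71.QU

open Finset

variable {V : Type*} [DecidableEq V]

lemma base_U_insert (C : Finset V) (S : Finset (Finset V)) : U (insert C S) = C ∪ U S := by
  unfold U
  rw [Finset.biUnion_insert]
  rfl

lemma base_U_union (S T : Finset (Finset V)) : U (S ∪ T) = U S ∪ U T := by
  unfold U
  exact Finset.union_biUnion ..

lemma base_U_inter (S T : Finset (Finset V)) : U (S ∩ T) ⊆ U S ∩ U T := by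
  unfold U
  refine Finset.subset_inter ?_ ?_
  · exact Finset.biUnion_subset_biUnion_of_subset_left _ Finset.inter_subset_left
  · exact Finset.biUnion_subset_biUnion_of_subset_left _ Finset.inter_subset_right

lemma f_insert {r : ℕ} {S : Finset (Finset V)} {C : Finset V} (hr : C.card = r) (hC : C ∉ S) :
    f r (insert C S) = f r S + 2 - ((C ∩ U S).card : ℤ) := by
  have h1 := Finset.card_union_add_card_inter C (U S)
  have h2 : (((C ∪ U S).card : ℤ)) + ((C ∩ U S).card : ℤ) = (C.card : ℤ) + ((U S).card : ℤ) := by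
    exact_mod_cast h1
  unfold f
  rw [base_U_insert, Finset.card_insert_of_notMem hC]
  push_cast
  rw [hr] at h2
  linarith

lemma f_union_le {r : ℕ} (S T : Finset (Finset V)) :
    f r (S ∪ T) + f r (S ∩ T) ≤ f r S + f r T := by
  have h1 : ((S ∪ T).card : ℤ) + ((S ∩ T).card : ℤ) = (S.card : ℤ) + (T.card : ℤ) := by
    exact_mod_cast Finset.card_union_add_card_inter S T
  have h2 : ((U S ∪ U T).card : ℤ) + ((U S ∩ U T).card : ℤ) = ((U S).card : ℤ) + ((U T).card : ℤ) := by
    exact_mod_cast Finset.card_union_add_card_inter (U S) (U T)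
  have h3 : ((U (S ∩ T)).card : ℤ) ≤ ((U S ∩ U T).card : ℤ) := by
    exact_mod_cast Finset.card_le_card (base_U_inter S T)
  have h4 : ((r : ℤ) - 2) * ((S ∪ T).card : ℤ) + ((r : ℤ) - 2) * ((S ∩ T).card : ℤ) =
      ((r : ℤ) - 2) * (S.card : ℤ) + ((r : ℤ) - 2) * (T.card : ℤ) := by
    rw [← mul_add, ← mul_add, h1]
  unfold f
  rw [base_U_union]
  linarith

lemma f_union_disj {r : ℕ} {S T : Finset (Finset V)} (h : Disjoint S T)
    (h2 : (U S ∩ U T).Nonempty) : f r (S ∪ T) ≤ f r S + f r T - 1 := by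
  have h1 : ((S ∪ T).card : ℤ) = (S.card : ℤ) + (T.card : ℤ) := by
    exact_mod_cast Finset.card_union_of_disjoint h
  have h3 : ((U S ∪ U T).card : ℤ) + ((U S ∩ U T).card : ℤ) = ((U S).card : ℤ) + ((U T).card : ℤ) := by
    exact_mod_cast Finset.card_union_add_card_inter (U S) (U T)
  have h4 : (1 : ℤ) ≤ ((U S ∩ U T).card : ℤ) := by
    exact_mod_cast Finset.card_pos.mpr h2
  unfold f
  rw [base_U_union, h1, mul_add]
  linarith

lemma f_of_free {r e : ℕ} {H S : Finset (Finset V)} (hr : 2 ≤ r) (hF : Free r e H) (hS : S ⊆ H)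
    (hc : S.card = e) : 4 ≤ f r S := by
  have h1 := hF S hS hc
  have h2 : (((r - 2) * e + 3 : ℕ) : ℤ) < ((U S).card : ℤ) := by exact_mod_cast h1
  push_cast [Nat.cast_sub hr] at h2
  unfold f
  rw [hc]
  linarith

lemma f_ge {r : ℕ} (S : Finset (Finset V)) : -((r : ℤ) * S.card) ≤ f r S := by
  have h1 : (0 : ℤ) ≤ ((U S).card : ℤ) := Int.natCast_nonneg _
  have h2 : (0 : ℤ) ≤ (S.card : ℤ) := Int.natCast_nonneg _
  unfold f
  linarith

lemma Lin.mono {r : ℕ} {H H' : Finset (Finset V)} (h : Lin r H) (hs : H' ⊆ H) : Lin r H' :=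
  ⟨fun A hA => h.unif A (hs hA), fun A hA B hB hAB => h.lin A (hs hA) B (hs hB) hAB⟩

lemma Free.mono {r e : ℕ} {H H' : Finset (Finset V)} (h : Free r e H) (hs : H' ⊆ H) :
    Free r e H' :=
  fun S hS hc => h S (hS.trans hs) hc

end Pool.Agent.Helper71.QU
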