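import Mathlib
import Pool.Agent.Helper71.QU.Defs

set_option autoImplicit false

namespace Pool.Agent.Helper71.QU

open Finset

variable {V : Type*} [DecidableEq V]

lemma meets_symm {A B : Finset V} (h : Meets A B) : Meets B A :=
  ⟨h.1.symm, by rw [Finset.inter_comm]; exact h.2⟩

/-- `Tri` is invariant under all permutations. -/
lemma tri_swap {A B C : Finset V} (h : Tri A B C) : Tri B A C :=
  ⟨meets_symm h.1, h.2.2.1, h.2.1, by rw [Finset.inter_comm B A]; exact h.2.2.2⟩

lemma tri_rot {A B C : Finset V} (h : Tri A B C) : Tri B C A :=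
  ⟨h.2.1, meets_symm h.2.2.1, meets_symm h.1, by
    rw [Finset.inter_comm (B ∩ C) A, ← Finset.inter_assoc]; exact h.2.2.2⟩

lemma mem_cherries {H : Finset (Finset V)} {A B : Finset V} :
    (A, B) ∈ cherries H ↔ A ∈ H ∧ B ∈ H ∧ Meets A B := by
  classical
  unfold cherries
  rw [Finset.mem_filter, Finset.mem_product]
  exact and_assoc

lemma cls_step_right {H : Finset (Finset V)} {p q : Finset V × Finset V} (h : Step H p q) :
    q ∈ cherries H := by
  cases h with
  | swap hA hB hm => exact mem_cherries.2 ⟨hB, hA, meets_symm hm⟩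
  | tri hA _ hC ht => exact mem_cherries.2 ⟨hA, hC, ht.2.2.1⟩

lemma cls_step_symm {H : Finset (Finset V)} {p q : Finset V × Finset V} (h : Step H p q) :
    Step H q p := by
  cases h with
  | swap hA hB hm => exact Step.swap hB hA (meets_symm hm)
  | tri hA hB hC ht => exact Step.tri hA hC hB (tri_swap (tri_rot (tri_rot ht)))

lemma cls_step_mono {H H' : Finset (Finset V)} (hs : H' ⊆ H) {p q : Finset V × Finset V}
    (h : Step H' p q) : Step H p q := by
  cases h with
  | swap hA hB hm => exact Step.swap (hs hA) (hs hB) hm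
  | tri hA hB hC ht => exact Step.tri (hs hA) (hs hB) (hs hC) ht

lemma cls_mem_cherries {H : Finset (Finset V)} {p q : Finset V × Finset V}
    (hp : p ∈ cherries H) (h : Cls H p q) : q ∈ cherries H := by
  rcases Relation.ReflTransGen.cases_tail h with h | ⟨c, _, hc⟩
  · rw [h]; exact hp
  · exact cls_step_right hc

lemma cls_symm {H : Finset (Finset V)} {p q : Finset V × Finset V}
    (h : Cls H p q) : Cls H q p := by
  unfold Cls at h ⊢
  induction h with
  | refl => exact Relation.ReflTransGen.refl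
  | tail _ hbc ih => exact Relation.ReflTransGen.head (cls_step_symm hbc) ih

lemma cls_trans {H : Finset (Finset V)} {p q s : Finset V × Finset V}
    (h : Cls H p q) (h' : Cls H q s) : Cls H p s :=
  Relation.ReflTransGen.trans h h'

lemma cls_swap {H : Finset (Finset V)} {p : Finset V × Finset V} {A B : Finset V}
    (hp : p ∈ cherries H) (h : Cls H p (A, B)) : Cls H p (B, A) := by
  obtain ⟨hA, hB, hm⟩ := mem_cherries.1 (cls_mem_cherries hp h)
  exact Relation.ReflTransGen.tail h (Step.swap hA hB hm)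

/-- If a pair of a triangle is in the class, so are the other pairs. -/
lemma cls_tri {H : Finset (Finset V)} {p : Finset V × Finset V} {A B C : Finset V}
    (hp : p ∈ cherries H) (h : Cls H p (A, B)) (hC : C ∈ H) (ht : Tri A B C) :
    Cls H p (A, C) ∧ Cls H p (B, C) := by
  obtain ⟨hA, hB, _⟩ := mem_cherries.1 (cls_mem_cherries hp h)
  exact ⟨Relation.ReflTransGen.tail h (Step.tri hA hB hC ht),
    Relation.ReflTransGen.tail (cls_swap hp h) (Step.tri hB hA hC (tri_swap ht))⟩

lemma cls_congr {H : Finset (Finset V)} {p q : Finset V × Finset V}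
    (h : Cls H p q) : cls H p = cls H q ∧ Lns H p = Lns H q := by
  classical
  constructor
  · unfold cls
    refine Finset.filter_congr fun s _ => ?_
    exact ⟨fun hs => cls_trans (cls_symm h) hs, fun hs => cls_trans h hs⟩
  · unfold Lns
    refine Finset.filter_congr fun C _ => ?_
    exact ⟨fun ⟨D, hs⟩ => ⟨D, cls_trans (cls_symm h) hs⟩, fun ⟨D, hs⟩ => ⟨D, cls_trans h hs⟩⟩

lemma mem_Lns_of_cls {H : Finset (Finset V)} {p : Finset V × Finset V} {A B : Finset V}
    (hp : p ∈ cherries H) (h : Cls H p (A, B)) : A ∈ Lns H p ∧ B ∈ Lns H p := by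
  classical
  obtain ⟨hA, hB, _⟩ := mem_cherries.1 (cls_mem_cherries hp h)
  unfold Lns
  exact ⟨Finset.mem_filter.2 ⟨hA, B, h⟩, Finset.mem_filter.2 ⟨hB, A, cls_swap hp h⟩⟩

lemma cls_mono {H H' : Finset (Finset V)} (hs : H' ⊆ H) {p q : Finset V × Finset V}
    (h : Cls H' p q) : Cls H p q := by
  unfold Cls at h ⊢
  induction h with
  | refl => exact Relation.ReflTransGen.refl
  | tail _ h2 ih => exact Relation.ReflTransGen.tail ih (cls_step_mono hs h2)

lemma Lns_mono {H H' : Finset (Finset V)} (hs : H' ⊆ H) (p : Finset V × Finset V) :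
    Lns H' p ⊆ Lns H p := by
  classical
  intro C hC
  unfold Lns at hC ⊢
  obtain ⟨hC1, D, hD⟩ := Finset.mem_filter.1 hC
  exact Finset.mem_filter.2 ⟨hs hC1, D, cls_mono hs hD⟩

lemma cherries_mono {H H' : Finset (Finset V)} (hs : H' ⊆ H) :
    cherries H' ⊆ cherries H := by
  rintro ⟨A, B⟩ h
  obtain ⟨hA, hB, hm⟩ := mem_cherries.1 h
  exact mem_cherries.2 ⟨hs hA, hs hB, hm⟩

lemma built_subset {H P : Finset (Finset V)} {A B : Finset V} (hp : (A, B) ∈ cherries H)
    (hP : Built H A B P) : P ⊆ Lns H (A, B) ∧ A ∈ P ∧ B ∈ P := by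
  induction hP with
  | base =>
    obtain ⟨h1, h2⟩ := mem_Lns_of_cls hp (Relation.ReflTransGen.refl : Cls H (A, B) (A, B))
    refine ⟨?_, by simp, by simp⟩
    intro C hC
    rcases Finset.mem_insert.1 hC with rfl | hC
    · exact h1
    · rw [Finset.mem_singleton.1 hC]; exact h2
  | step _ _ _ hC hcls htri ih =>
    obtain ⟨i1, i2, i3⟩ := ih
    refine ⟨?_, Finset.mem_insert_of_mem i2, Finset.mem_insert_of_mem i3⟩
    intro X hX
    rcases Finset.mem_insert.1 hX with rfl | hX
    · exact (mem_Lns_of_cls hp (cls_tri hp hcls hC (tri_rot htri)).1).2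
    · exact i1 hX

/-- The set of all lines of the class of `(A, B)` is built up from `(A, B)`. -/
lemma built_Lns {H : Finset (Finset V)} {A B : Finset V} (hp : (A, B) ∈ cherries H) :
    Built H A B (Lns H (A, B)) := by
  classical
  have hne : ((Lns H (A, B)).powerset.filter (fun P => Built H A B P)).Nonempty :=
    ⟨{A, B}, Finset.mem_filter.2 ⟨Finset.mem_powerset.2 (built_subset hp Built.base).1,
      Built.base⟩⟩
  obtain ⟨P, hP, hmax⟩ := Finset.exists_max_image _ Finset.card hne
  obtain ⟨_, hPB⟩ := Finset.mem_filter.1 hP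
  obtain ⟨hsub, hA, hB⟩ := built_subset hp hPB
  have key : ∀ q, Cls H (A, B) q → q.1 ∈ P ∧ q.2 ∈ P := by
    intro q hq
    unfold Cls at hq
    induction hq with
    | refl => exact ⟨hA, hB⟩
    | tail h1 h2 ih =>
      cases h2 with
      | swap => exact ⟨ih.2, ih.1⟩
      | @tri A' B' C hA' hB' hC ht =>
        refine ⟨ih.1, ?_⟩
        by_contra hCP
        have hb : Built H A B (insert C P) :=
          Built.step hPB ih.1 ih.2 hC h1 (tri_rot (tri_rot ht))
        have hm := hmax (insert C P) (Finset.mem_filter.2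
          ⟨Finset.mem_powerset.2 (built_subset hp hb).1, hb⟩)
        rw [Finset.card_insert_of_notMem hCP] at hm
        omega
  have heq : Lns H (A, B) = P := by
    refine Finset.Subset.antisymm ?_ hsub
    intro C hC
    unfold Lns at hC
    obtain ⟨_, D, hD⟩ := Finset.mem_filter.1 hC
    exact (key (C, D) hD).1
  rw [heq]
  exact hPB

end Pool.Agent.Helper71.QU
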