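import Mathlib
import Pool.Agent.Helper71.QU.BASE
import Pool.Agent.Helper71.QU.CLS

set_option autoImplicit false

namespace Pool.Agent.Helper71.QU

open Finset

variable {V : Type*} [DecidableEq V]

lemma ex_card {r e : ℕ} {H T : Finset (Finset V)} (hr : 3 ≤ r) (hF : Free r e H) (hT : T ⊆ H)
    (hc : T.card < e) {C : Finset V} (hC : C ∈ H) (hf : f r (insert C T) ≤ 3) :
    (insert C T).card < e := by
  by_contra hcon
  have h1 := Finset.card_insert_le C T
  have h2 : (insert C T).card = e := by omega
  have h3 := f_of_free (by omega) hF (insert_subset hC hT) h2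
  linarith

lemma ex_sub_U {T : Finset (Finset V)} {A : Finset V} (h : A ∈ T) : A ⊆ U T := by
  intro x hx
  exact mem_biUnion.2 ⟨A, h, hx⟩

lemma ex_f_empty {r : ℕ} : f r (∅ : Finset (Finset V)) = 0 := by
  simp [f, U]

lemma ex_f_single {r : ℕ} {A : Finset V} (hA : A.card = r) : f r {A} = 2 := by
  have h := f_insert (S := ∅) hA (notMem_empty A)
  rw [ex_f_empty] at h
  simpa [U] using h

lemma ex_Lns_sub {H : Finset (Finset V)} {p : Finset V × Finset V} : Lns H p ⊆ H := by
  classical
  intro x hx
  exact (mem_filter.1 hx).1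

/-- Exactness: building up from `(A, B)` on top of `S` never reaches `e` lines. -/
lemma ex_bound {r e : ℕ} {H S P : Finset (Finset V)} (hr : 3 ≤ r) (hL : Lin r H)
    (hF : Free r e H) (hS : S ⊆ H) (hc : S.card < e) {A B : Finset V}
    (hp : (A, B) ∈ cherries H) (h2 : f r (insert A S) ≤ 2) (hP : Built H A B P) :
    (S ∪ P).card < e ∧ f r (S ∪ P) ≤ 3 := by
  obtain ⟨hA, hB, hAB⟩ := mem_cherries.1 hp
  induction hP with
  | base =>
    have h0 : (insert A S).card < e := ex_card hr hF hS hc hA (by linarith)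
    have hT : insert A S ⊆ H := insert_subset hA hS
    have he : S ∪ {A, B} = insert B (insert A S) := by
      ext x
      simp only [mem_union, mem_insert, mem_singleton]
      tauto
    rw [he]
    have h3 : f r (insert B (insert A S)) ≤ 3 := by
      by_cases hm : B ∈ insert A S
      · rw [insert_eq_of_mem hm]
        linarith
      · rw [f_insert (hL.unif B hB) hm]
        obtain ⟨x, hx⟩ := hAB.2
        have hx' : x ∈ B ∩ U (insert A S) :=
          mem_inter.2 ⟨(mem_inter.1 hx).2, ex_sub_U (mem_insert_self A S) (mem_inter.1 hx).1⟩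
        have : 0 < (B ∩ U (insert A S)).card := card_pos.2 ⟨x, hx'⟩
        have h' : (1 : ℤ) ≤ ((B ∩ U (insert A S)).card : ℤ) := by exact_mod_cast this
        linarith
    exact ⟨ex_card hr hF hT h0 hB h3, h3⟩
  | @step P C D D' hPb hD hD' hC hcl ht ih =>
    obtain ⟨ih1, ih2⟩ := ih
    rw [union_insert]
    have hPH : P ⊆ H := (built_subset hp hPb).1.trans ex_Lns_sub
    have hT : S ∪ P ⊆ H := union_subset hS hPH
    have h3 : f r (insert C (S ∪ P)) ≤ 3 := by
      by_cases hm : C ∈ S ∪ P
      · rw [insert_eq_of_mem hm]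
        exact ih2
      · rw [f_insert (hL.unif C hC) hm]
        obtain ⟨h1, h2', h3', h4⟩ := ht
        obtain ⟨x, hx⟩ := h1.2
        obtain ⟨y, hy⟩ := h3'.2
        rw [mem_inter] at hx hy
        have hxy : x ≠ y := by
          rintro rfl
          have : x ∈ C ∩ D ∩ D' := mem_inter.2 ⟨mem_inter.2 ⟨hx.1, hx.2⟩, hy.2⟩
          rw [h4] at this
          exact notMem_empty _ this
        have : 1 < (C ∩ U (S ∪ P)).card := one_lt_card.2
          ⟨x, mem_inter.2 ⟨hx.1, ex_sub_U (mem_union_right _ hD) hx.2⟩, y,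
            mem_inter.2 ⟨hy.1, ex_sub_U (mem_union_right _ hD') hy.2⟩, hxy⟩
        have h' : (2 : ℤ) ≤ ((C ∩ U (S ∪ P)).card : ℤ) := by exact_mod_cast this
        linarith
    exact ⟨ex_card hr hF hT ih1 hC h3, h3⟩

lemma Lns_bound {r e : ℕ} {H : Finset (Finset V)} (hr : 3 ≤ r) (hL : Lin r H)
    (hF : Free r e H) {p : Finset V × Finset V} (hp : p ∈ cherries H) :
    (Lns H p).card < e ∧ f r (Lns H p) ≤ 3 := by
  obtain ⟨A, B⟩ := p
  obtain ⟨hA, hB, hAB⟩ := mem_cherries.1 hp
  have he : 0 < e := by
    rcases Nat.eq_zero_or_pos e with h | h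
    · subst h
      have := hF ∅ (empty_subset _) card_empty
      simp [U] at this
    · exact h
  have h := ex_bound hr hL hF (empty_subset H) (by rwa [card_empty]) hp
    (by
      have := ex_f_single (hL.unif A hA)
      rw [show insert A (∅ : Finset (Finset V)) = {A} from rfl, this]) (built_Lns hp)
  rwa [empty_union] at h

end Pool.Agent.Helper71.QU
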