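import Mathlib
import Pool.Agent.Helper71.QU.EX

set_option autoImplicit false

namespace Pool.Agent.Helper71.QU

open Finset

variable {V : Type*} [DecidableEq V]

open Classical in
/-- ordered pairs of the class inside `P` -/
noncomputable def tl_c (H : Finset (Finset V)) (p : Finset V × Finset V) (P : Finset (Finset V)) :
    Finset (Finset V × Finset V) :=
  (P ×ˢ P).filter fun q => Cls H p q

open Classical in
/-- ordered triangles inside `P` with a pair in the class -/
noncomputable def tl_t (H : Finset (Finset V)) (p : Finset V × Finset V) (P : Finset (Finset V)) :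
    Finset (Finset V × Finset V × Finset V) :=
  (P ×ˢ P ×ˢ P).filter fun q => Cls H p (q.1, q.2.1) ∧ Tri q.1 q.2.1 q.2.2

open Classical in
/-- lines of `P` through `a` in the class with `C` -/
noncomputable def tl_X (H : Finset (Finset V)) (p : Finset V × Finset V) (P : Finset (Finset V))
    (C : Finset V) (a : V) : Finset (Finset V) :=
  P.filter fun D => a ∈ D ∧ Cls H p (C, D)

open Classical in
/-- meeting pairs -/
noncomputable def tl_Q (X Y : Finset (Finset V)) : Finset (Finset V × Finset V) :=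
  (X ×ˢ Y).filter fun q => (q.1 ∩ q.2).Nonempty

lemma tl_mem_c {H : Finset (Finset V)} {p : Finset V × Finset V} {P : Finset (Finset V)}
    {C D : Finset V} : (C, D) ∈ tl_c H p P ↔ (C ∈ P ∧ D ∈ P) ∧ Cls H p (C, D) := by
  simp [tl_c, mem_filter, mem_product]

lemma tl_mem_t {H : Finset (Finset V)} {p : Finset V × Finset V} {P : Finset (Finset V)}
    {C D E : Finset V} : (C, D, E) ∈ tl_t H p P ↔
      (C ∈ P ∧ D ∈ P ∧ E ∈ P) ∧ Cls H p (C, D) ∧ Tri C D E := by
  simp [tl_t, mem_filter, mem_product]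

lemma tl_mem_X {H : Finset (Finset V)} {p : Finset V × Finset V} {P : Finset (Finset V)}
    {C D : Finset V} {a : V} : D ∈ tl_X H p P C a ↔ D ∈ P ∧ a ∈ D ∧ Cls H p (C, D) := by
  simp [tl_X, mem_filter]

lemma tl_mem_Q {X Y : Finset (Finset V)} {D E : Finset V} :
    (D, E) ∈ tl_Q X Y ↔ (D ∈ X ∧ E ∈ Y) ∧ (D ∩ E).Nonempty := by
  simp [tl_Q, mem_filter, mem_product]

lemma tl_eq_of_two {r : ℕ} {H : Finset (Finset V)} (hL : Lin r H) {A B : Finset V} (hA : A ∈ H)
    (hB : B ∈ H) {x y : V} (hxA : x ∈ A) (hyA : y ∈ A) (hxB : x ∈ B) (hyB : y ∈ B)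
    (hxy : x ≠ y) : A = B := by
  by_contra hne
  have h := hL.lin A hA B hB hne
  have h2 : 1 < (A ∩ B).card := one_lt_card.2
    ⟨x, mem_inter.2 ⟨hxA, hxB⟩, y, mem_inter.2 ⟨hyA, hyB⟩, hxy⟩
  omega

lemma tl_mem_U {T : Finset (Finset V)} {x : V} : x ∈ U T ↔ ∃ A ∈ T, x ∈ A := by
  simp [U]

/-- the number of meeting pairs -/
lemma tl_count {r : ℕ} {H : Finset (Finset V)} (hr : 3 ≤ r) (hL : Lin r H) {X Y : Finset (Finset V)}
    (hX : X ⊆ H) (hY : Y ⊆ H) {a b : V} (hXa : ∀ D ∈ X, a ∈ D) (hYb : ∀ D ∈ Y, b ∈ D)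
    (hXb : ∀ D ∈ X, b ∉ D) (hYa : ∀ D ∈ Y, a ∉ D) (hf : 3 ≤ f r (X ∪ Y)) :
    (tl_Q X Y).card + 1 ≤ X.card + Y.card := by
  classical
  have hdisj : Disjoint X Y := by
    rw [disjoint_left]
    intro D hDX hDY
    exact hYa D hDY (hXa D hDX)
  set UX := X.biUnion fun D => D.erase a with hUX
  set UY := Y.biUnion fun D => D.erase b with hUY
  have c1 : UX.card ≤ X.card * (r - 1) := by
    refine card_biUnion_le_card_mul _ _ _ fun D hD => ?_
    rw [card_erase_of_mem (hXa D hD), hL.unif D (hX hD)]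
  have c2 : UY.card ≤ Y.card * (r - 1) := by
    refine card_biUnion_le_card_mul _ _ _ fun D hD => ?_
    rw [card_erase_of_mem (hYb D hD), hL.unif D (hY hD)]
  have c3 : (U (X ∪ Y)).card ≤ (UX ∪ UY).card + 2 := by
    have : U (X ∪ Y) ⊆ insert a (insert b (UX ∪ UY)) := by
      intro x hx
      obtain ⟨D, hD, hxD⟩ := tl_mem_U.1 hx
      simp only [mem_insert, mem_union]
      by_cases hxa : x = a
      · exact Or.inl hxa
      by_cases hxb : x = b
      · exact Or.inr (Or.inl hxb)
      rcases mem_union.1 hD with h | h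
      · exact Or.inr (Or.inr (Or.inl (mem_biUnion.2 ⟨D, h, mem_erase.2 ⟨hxa, hxD⟩⟩)))
      · exact Or.inr (Or.inr (Or.inr (mem_biUnion.2 ⟨D, h, mem_erase.2 ⟨hxb, hxD⟩⟩)))
    refine (card_le_card this).trans ?_
    refine (card_insert_le _ _).trans ?_
    have := card_insert_le b (UX ∪ UY)
    omega
  have c4 : (tl_Q X Y).card ≤ (UX ∩ UY).card := by
    let g : Finset V × Finset V → V := fun q => if h : (q.1 ∩ q.2).Nonempty then h.choose else a
    have hg : ∀ D E : Finset V, (D ∩ E).Nonempty → g (D, E) ∈ D ∧ g (D, E) ∈ E := by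
      intro D E h
      have : g (D, E) = h.choose := dif_pos h
      rw [this]
      exact mem_inter.1 h.choose_spec
    refine card_le_card_of_injOn g ?_ ?_
    · rintro ⟨D, E⟩ hq
      obtain ⟨⟨hD, hE⟩, hne⟩ := tl_mem_Q.1 (mem_coe.1 hq)
      obtain ⟨h1, h2⟩ := hg D E hne
      have ha : g (D, E) ≠ a := fun h => hYa E hE (h ▸ h2)
      have hb : g (D, E) ≠ b := fun h => hXb D hD (h ▸ h1)
      exact mem_coe.2 (mem_inter.2 ⟨mem_biUnion.2 ⟨D, hD, mem_erase.2 ⟨ha, h1⟩⟩,
        mem_biUnion.2 ⟨E, hE, mem_erase.2 ⟨hb, h2⟩⟩⟩)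
    · rintro ⟨D, E⟩ hq ⟨D', E'⟩ hq' heq
      obtain ⟨⟨hD, hE⟩, hne⟩ := tl_mem_Q.1 (mem_coe.1 hq)
      obtain ⟨⟨hD', hE'⟩, hne'⟩ := tl_mem_Q.1 (mem_coe.1 hq')
      obtain ⟨h1, h2⟩ := hg D E hne
      obtain ⟨h1', h2'⟩ := hg D' E' hne'
      rw [← heq] at h1' h2'
      have ha : g (D, E) ≠ a := fun h => hYa E hE (h ▸ h2)
      have hb : g (D, E) ≠ b := fun h => hXb D hD (h ▸ h1)
      have e1 : D = D' := tl_eq_of_two hL (hX hD) (hX hD') h1 (hXa D hD) h1' (hXa D' hD') ha
      have e2 : E = E' := tl_eq_of_two hL (hY hE) (hY hE') h2 (hYb E hE) h2' (hYb E' hE') hb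
      rw [e1, e2]
  have c5 := card_union_add_card_inter UX UY
  have c6 : (X ∪ Y).card = X.card + Y.card := card_union_of_disjoint hdisj
  have c7 : (U (X ∪ Y)).card + (tl_Q X Y).card ≤ (X.card + Y.card) * (r - 1) + 2 := by
    rw [add_mul]
    omega
  unfold f at hf
  rw [c6] at hf
  obtain ⟨r', rfl⟩ : ∃ r', r = r' + 1 := ⟨r - 1, by omega⟩
  rw [Nat.add_sub_cancel] at c7
  have c8 : (((U (X ∪ Y)).card : ℤ)) + (tl_Q X Y).card ≤ ((X.card : ℤ) + Y.card) * r' + 2 := by
    exact_mod_cast c7
  push_cast at hf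
  have : ((tl_Q X Y).card : ℤ) + 1 ≤ X.card + Y.card := by linarith
  exact_mod_cast this

lemma tl_main {r : ℕ} {H : Finset (Finset V)} (hr : 3 ≤ r) (hL : Lin r H) {A B : Finset V}
    (hp : (A, B) ∈ cherries H) {P : Finset (Finset V)} (hP : Built H A B P) :
    f r P ≤ 3 ∧ (f r P = 3 → (∀ S ⊆ P, 2 ≤ S.card → 3 ≤ f r S) ∧
      (tl_t H (A, B) P).card + 6 * (P.card - 1) ≤ 3 * (tl_c H (A, B) P).card) := by
  classical
  obtain ⟨hA, hB, hAB⟩ := mem_cherries.1 hp
  induction hP with
  | base =>
    have hcard : ({A, B} : Finset (Finset V)).card = 2 := card_pair hAB.1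
    have h1 : (A ∩ B).card = 1 := le_antisymm (hL.lin A hA B hB hAB.1) (card_pos.2 hAB.2)
    have hf : f r {A, B} = 3 := by
      have hn : A ∉ ({B} : Finset (Finset V)) := by simpa using hAB.1
      have h := f_insert (hL.unif A hA) hn
      rw [h, ex_f_single (hL.unif B hB)]
      have : U ({B} : Finset (Finset V)) = B := by simp [U]
      rw [this, h1]
      norm_num
    refine ⟨hf.le, fun _ => ⟨?_, ?_⟩⟩
    · intro S hS hc
      have : S = {A, B} := eq_of_subset_of_card_le hS (by rw [hcard]; exact hc)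
      rw [this, hf]
    · have ht : tl_t H (A, B) {A, B} = ∅ := by
        rw [eq_empty_iff_forall_notMem]
        rintro ⟨C, D, E⟩ hq
        obtain ⟨⟨hC, hD, hE⟩, -, h1, h2, h3, -⟩ := tl_mem_t.1 hq
        rw [mem_insert, mem_singleton] at hC hD hE
        have n1 := h1.1
        have n2 := h2.1
        have n3 := h3.1
        rcases hC with rfl | rfl <;> rcases hD with rfl | rfl <;> rcases hE with rfl | rfl <;>
          simp_all
      have hc : ({(A, B), (B, A)} : Finset (Finset V × Finset V)) ⊆ tl_c H (A, B) {A, B} := by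
        intro q hq
        rw [mem_insert, mem_singleton] at hq
        have h0 : Cls H (A, B) (A, B) := Relation.ReflTransGen.refl
        rcases hq with rfl | rfl
        · exact tl_mem_c.2 ⟨⟨by simp, by simp⟩, h0⟩
        · exact tl_mem_c.2 ⟨⟨by simp, by simp⟩, cls_swap hp h0⟩
      have hc2 : ({(A, B), (B, A)} : Finset (Finset V × Finset V)).card = 2 :=
        card_pair (fun h => hAB.1 (Prod.mk.inj h).1)
      have := card_le_card hc
      rw [ht, hcard, card_empty]
      omega
  | @step P C D D' hPb hD hD' hC hcl ht ih =>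
    obtain ⟨ih1, ih2⟩ := ih
    have hPH : P ⊆ H := (built_subset hp hPb).1.trans ex_Lns_sub
    have hAP : A ∈ P := (built_subset hp hPb).2.1
    by_cases hm : C ∈ P
    · rw [insert_eq_of_mem hm]
      exact ⟨ih1, ih2⟩
    have hfi := f_insert (r := r) (hL.unif C hC) hm
    have ht0 := ht
    obtain ⟨h1, h2', h3', h4⟩ := ht
    obtain ⟨x, hx⟩ := h1.2
    obtain ⟨y, hy⟩ := h3'.2
    rw [mem_inter] at hx hy
    have hxy : x ≠ y := by
      rintro rfl
      have : x ∈ C ∩ D ∩ D' := mem_inter.2 ⟨mem_inter.2 ⟨hx.1, hx.2⟩, hy.2⟩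
      rw [h4] at this
      exact notMem_empty _ this
    have hk : 1 < (C ∩ U P).card := one_lt_card.2
      ⟨x, mem_inter.2 ⟨hx.1, ex_sub_U hD hx.2⟩, y, mem_inter.2 ⟨hy.1, ex_sub_U hD' hy.2⟩, hxy⟩
    have hk' : (2 : ℤ) ≤ ((C ∩ U P).card : ℤ) := by exact_mod_cast hk
    refine ⟨by linarith, fun hf3 => ?_⟩
    have hfP : f r P = 3 := by linarith
    have hk2 : (C ∩ U P).card = 2 := by
      have : ((C ∩ U P).card : ℤ) = 2 := by linarith
      exact_mod_cast this
    obtain ⟨ii, iii⟩ := ih2 hfP
    refine ⟨?_, ?_⟩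
    · intro S hS hSc
      by_cases hCS : C ∈ S
      · set S' := S.erase C with hS'
        have hS'P : S' ⊆ P := by
          intro E hE
          rw [hS', mem_erase] at hE
          rcases mem_insert.1 (hS hE.2) with h | h
          · exact absurd h hE.1
          · exact h
        have hSe : S = insert C S' := (insert_erase hCS).symm
        have hfS := f_insert (r := r) (hL.unif C hC) (notMem_erase C S)
        rw [← hS', ← hSe] at hfS
        have hcS' : S'.card = S.card - 1 := card_erase_of_mem hCS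
        by_cases h2 : 2 ≤ S'.card
        · have := ii S' hS'P h2
          have hle : (C ∩ U S').card ≤ (C ∩ U P).card := by
            refine card_le_card (inter_subset_inter_left ?_)
            intro z hz
            obtain ⟨E, hE, hzE⟩ := tl_mem_U.1 hz
            exact tl_mem_U.2 ⟨E, hS'P hE, hzE⟩
          have hle' : ((C ∩ U S').card : ℤ) ≤ 2 := by
            rw [hk2] at hle
            exact_mod_cast hle
          linarith
        · have h1' : S'.card = 1 := by omega
          obtain ⟨E, hE⟩ := card_eq_one.1 h1'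
          have hEP : E ∈ P := hS'P (by rw [hE]; exact mem_singleton_self E)
          rw [hE, ex_f_single (hL.unif E (hPH hEP))] at hfS
          have hUE : U ({E} : Finset (Finset V)) = E := by simp [U]
          rw [hUE] at hfS
          have hne : C ≠ E := fun h => hm (h ▸ hEP)
          have hle := hL.lin C hC E (hPH hEP) hne
          have hle' : ((C ∩ E).card : ℤ) ≤ 1 := by exact_mod_cast hle
          linarith
      · refine ii S ?_ hSc
        intro E hE
        rcases mem_insert.1 (hS hE) with h | h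
        · exact absurd (h ▸ hE) hCS
        · exact h
    · obtain ⟨a, b, hab, hCab⟩ := card_eq_two.1 hk2
      have haC : a ∈ C := (mem_inter.1 (hCab ▸ mem_insert_self a {b})).1
      have hbC : b ∈ C :=
        (mem_inter.1 (hCab ▸ mem_insert_of_mem (mem_singleton_self b))).1
      set X := tl_X H (A, B) P C a with hXdef
      set Y := tl_X H (A, B) P C b with hYdef
      have hXH : X ⊆ H := fun E hE => hPH (tl_mem_X.1 hE).1
      have hYH : Y ⊆ H := fun E hE => hPH (tl_mem_X.1 hE).1
      have hnot : ∀ E ∈ P, a ∈ E → b ∈ E → False := by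
        intro E hE hae hbe
        have := tl_eq_of_two hL hC (hPH hE) haC hbC hae hbe hab
        exact hm (this ▸ hE)
      have hab_of : ∀ E ∈ P, ∀ z, z ∈ C → z ∈ E → z = a ∨ z = b := by
        intro E hE z hzC hzE
        have : z ∈ C ∩ U P := mem_inter.2 ⟨hzC, ex_sub_U hE hzE⟩
        rw [hCab, mem_insert, mem_singleton] at this
        exact this
      have hXY : ∀ E ∈ P, Cls H (A, B) (C, E) → E ∈ X ∨ E ∈ Y := by
        intro E hE hce
        have hch := cls_mem_cherries hp hce
        obtain ⟨-, -, hmeet⟩ := mem_cherries.1 hch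
        obtain ⟨z, hz⟩ := hmeet.2
        rw [mem_inter] at hz
        rcases hab_of E hE z hz.1 hz.2 with rfl | rfl
        · exact Or.inl (tl_mem_X.2 ⟨hE, hz.2, hce⟩)
        · exact Or.inr (tl_mem_X.2 ⟨hE, hz.2, hce⟩)
      have hXb : ∀ E ∈ X, b ∉ E := fun E hE hb =>
        hnot E (tl_mem_X.1 hE).1 (tl_mem_X.1 hE).2.1 hb
      have hYa : ∀ E ∈ Y, a ∉ E := fun E hE ha =>
        hnot E (tl_mem_X.1 hE).1 ha (tl_mem_X.1 hE).2.1
      have hdisj : Disjoint X Y := by
        rw [disjoint_left]
        intro E hEX hEY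
        exact hYa E hEY (tl_mem_X.1 hEX).2.1
      -- the lines of a triangle through `C` are one in `X` and one in `Y`
      have htri : ∀ E ∈ P, ∀ E' ∈ P, Cls H (A, B) (C, E) → Tri C E E' →
          (E, E') ∈ tl_Q X Y ∨ (E', E) ∈ tl_Q X Y := by
        intro E hE E' hE' hce htr
        have hce' := (cls_tri hp hce (hPH hE') htr).1
        obtain ⟨t1, t2, t3, t4⟩ := htr
        have hno : ∀ z, z ∈ C → z ∈ E → z ∈ E' → False := by
          intro z z1 z2 z3
          have : z ∈ C ∩ E ∩ E' := mem_inter.2 ⟨mem_inter.2 ⟨z1, z2⟩, z3⟩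
          rw [t4] at this
          exact notMem_empty _ this
        rcases hXY E hE hce with h | h <;> rcases hXY E' hE' hce' with h' | h'
        · exact absurd (hno a haC (tl_mem_X.1 h).2.1 (tl_mem_X.1 h').2.1) id
        · exact Or.inl (tl_mem_Q.2 ⟨⟨h, h'⟩, t2.2⟩)
        · exact Or.inr (tl_mem_Q.2 ⟨⟨h', h⟩, by rw [inter_comm]; exact t2.2⟩)
        · exact absurd (hno b hbC (tl_mem_X.1 h).2.1 (tl_mem_X.1 h').2.1) id
      -- `C` with `D` is in the class
      have hCD : Cls H (A, B) (C, D) := by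
        have h := cls_tri hp hcl hC (tri_rot ht0)
        exact cls_swap hp h.1
      have hI : (tl_Q X Y).card + 1 ≤ X.card + Y.card := by
        apply tl_count hr hL hXH hYH (a := a) (b := b) (fun E hE => (tl_mem_X.1 hE).2.1)
          (fun E hE => (tl_mem_X.1 hE).2.1) hXb hYa
        apply ii
        · intro E hE
          rcases mem_union.1 hE with h | h
          · exact (tl_mem_X.1 h).1
          · exact (tl_mem_X.1 h).1
        · rw [card_union_of_disjoint hdisj]
          rcases htri D hD D' hD' hCD ht0 with h | h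
          · have h' := (tl_mem_Q.1 h).1
            have q1 := card_pos.2 ⟨_, h'.1⟩
            have q2 := card_pos.2 ⟨_, h'.2⟩
            omega
          · have h' := (tl_mem_Q.1 h).1
            have q1 := card_pos.2 ⟨_, h'.1⟩
            have q2 := card_pos.2 ⟨_, h'.2⟩
            omega
      -- lower bound for the pairs
      have hc : (tl_c H (A, B) P).card + 2 * (X.card + Y.card) ≤
          (tl_c H (A, B) (insert C P)).card := by
        have hsub : tl_c H (A, B) P ∪ ((X ∪ Y).image (fun E => (C, E)) ∪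
            (X ∪ Y).image (fun E => (E, C))) ⊆ tl_c H (A, B) (insert C P) := by
          intro q hq
          rw [mem_union, mem_union, mem_image, mem_image] at hq
          rcases hq with h | ⟨E, hE, rfl⟩ | ⟨E, hE, rfl⟩
          · obtain ⟨E, E'⟩ := q
            obtain ⟨⟨h1, h2⟩, h3⟩ := tl_mem_c.1 h
            exact tl_mem_c.2 ⟨⟨mem_insert_of_mem h1, mem_insert_of_mem h2⟩, h3⟩
          · have : E ∈ P ∧ Cls H (A, B) (C, E) := by
              rcases mem_union.1 hE with h | h
              · exact ⟨(tl_mem_X.1 h).1, (tl_mem_X.1 h).2.2⟩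
              · exact ⟨(tl_mem_X.1 h).1, (tl_mem_X.1 h).2.2⟩
            exact tl_mem_c.2 ⟨⟨mem_insert_self _ _, mem_insert_of_mem this.1⟩, this.2⟩
          · have : E ∈ P ∧ Cls H (A, B) (C, E) := by
              rcases mem_union.1 hE with h | h
              · exact ⟨(tl_mem_X.1 h).1, (tl_mem_X.1 h).2.2⟩
              · exact ⟨(tl_mem_X.1 h).1, (tl_mem_X.1 h).2.2⟩
            exact tl_mem_c.2 ⟨⟨mem_insert_of_mem this.1, mem_insert_self _ _⟩,
              cls_swap hp this.2⟩
        have hXYP : ∀ E ∈ X ∪ Y, E ∈ P := by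
          intro E hE
          rcases mem_union.1 hE with h | h
          · exact (tl_mem_X.1 h).1
          · exact (tl_mem_X.1 h).1
        have d2 : Disjoint ((X ∪ Y).image (fun E => (C, E))) ((X ∪ Y).image (fun E => (E, C))) := by
          rw [disjoint_left]
          intro q h1 h2
          obtain ⟨E, hE, rfl⟩ := mem_image.1 h1
          obtain ⟨E', hE', h⟩ := mem_image.1 h2
          have := (Prod.mk.inj h).1
          exact hm (this ▸ hXYP E' hE')
        have d1 : Disjoint (tl_c H (A, B) P) ((X ∪ Y).image (fun E => (C, E)) ∪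
            (X ∪ Y).image (fun E => (E, C))) := by
          rw [disjoint_left]
          intro q h1 h2
          rw [mem_union, mem_image, mem_image] at h2
          rcases h2 with ⟨E, hE, rfl⟩ | ⟨E, hE, rfl⟩
          · exact hm (tl_mem_c.1 h1).1.1
          · exact hm (tl_mem_c.1 h1).1.2
        have := card_le_card hsub
        rw [card_union_of_disjoint d1, card_union_of_disjoint d2,
          card_image_of_injective _ (fun E E' h => (Prod.mk.inj h).2),
          card_image_of_injective _ (fun E E' h => (Prod.mk.inj h).1),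
          card_union_of_disjoint hdisj] at this
        omega
      -- upper bound for the triangles
      have htt : (tl_t H (A, B) (insert C P)).card ≤
          (tl_t H (A, B) P).card + 6 * (tl_Q X Y).card := by
        set J := tl_Q X Y ∪ (tl_Q X Y).image Prod.swap with hJ
        have hJc : J.card ≤ 2 * (tl_Q X Y).card := by
          refine (card_union_le _ _).trans ?_
          have := card_image_le (s := tl_Q X Y) (f := Prod.swap)
          omega
        have hsub : tl_t H (A, B) (insert C P) ⊆ tl_t H (A, B) P ∪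
            (J.image (fun q => (C, q.1, q.2)) ∪ (J.image (fun q => (q.1, C, q.2)) ∪
              J.image (fun q => (q.1, q.2, C)))) := by
          rintro ⟨E1, E2, E3⟩ hq
          obtain ⟨⟨m1, m2, m3⟩, hcl', htr⟩ := tl_mem_t.1 hq
          have hJm : ∀ E ∈ P, ∀ E' ∈ P, Cls H (A, B) (C, E) → Tri C E E' → (E, E') ∈ J := by
            intro E hE E' hE' h1 h2
            rcases htri E hE E' hE' h1 h2 with h | h
            · exact mem_union_left _ h
            · exact mem_union_right _ (mem_image.2 ⟨(E', E), h, rfl⟩)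
          have n12 := htr.1.1
          have n23 := htr.2.1.1
          have n13 := htr.2.2.1.1
          simp only [mem_union]
          rcases mem_insert.1 m1 with e1 | k1
          · subst e1
            have k2 := (mem_insert.1 m2).resolve_left n12.symm
            have k3 := (mem_insert.1 m3).resolve_left n13.symm
            exact Or.inr (Or.inl (mem_image.2 ⟨(E2, E3), hJm E2 k2 E3 k3 hcl' htr, rfl⟩))
          rcases mem_insert.1 m2 with e2 | k2
          · subst e2
            have k3 := (mem_insert.1 m3).resolve_left n23.symm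
            refine Or.inr (Or.inr (Or.inl (mem_image.2 ⟨(E1, E3), ?_, rfl⟩)))
            exact hJm E1 k1 E3 k3 (cls_swap hp hcl') (tri_swap htr)
          rcases mem_insert.1 m3 with e3 | k3
          · subst e3
            refine Or.inr (Or.inr (Or.inr (mem_image.2 ⟨(E1, E2), ?_, rfl⟩)))
            have h1 := (cls_tri hp hcl' hC htr).1
            exact hJm E1 k1 E2 k2 (cls_swap hp h1) (tri_rot (tri_rot htr))
          · exact Or.inl (tl_mem_t.2 ⟨⟨k1, k2, k3⟩, hcl', htr⟩)
        have k1 := card_image_le (s := J) (f := fun q => (C, q.1, q.2))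
        have k2 := card_image_le (s := J) (f := fun q => (q.1, C, q.2))
        have k3 := card_image_le (s := J) (f := fun q => (q.1, q.2, C))
        have k4 := card_le_card hsub
        have k5 := card_union_le (tl_t H (A, B) P)
            (J.image (fun q => (C, q.1, q.2)) ∪ (J.image (fun q => (q.1, C, q.2)) ∪
              J.image (fun q => (q.1, q.2, C))))
        have k6 := card_union_le (J.image (fun q => (C, q.1, q.2)))
          (J.image (fun q => (q.1, C, q.2)) ∪ J.image (fun q => (q.1, q.2, C)))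
        have k7 := card_union_le (J.image (fun q => (q.1, C, q.2)))
          (J.image (fun q => (q.1, q.2, C)))
        omega
      have hPc : (insert C P).card = P.card + 1 := card_insert_of_notMem hm
      have hP1 : 1 ≤ P.card := card_pos.2 ⟨A, hAP⟩
      rw [hPc]
      omega

/-- In a class whose lines have excess `3`: six times (number of triangles) plus
`6 (m - 1)` is at most three times the number of ordered pairs, `m` the number of lines. -/
lemma tl {r : ℕ} {H : Finset (Finset V)} (hr : 3 ≤ r) (hL : Lin r H) {A B : Finset V}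
    (hp : (A, B) ∈ cherries H) (hf : f r (Lns H (A, B)) = 3) :
    ∑ q ∈ cls H (A, B), (thirds H q).card + 6 * ((Lns H (A, B)).card - 1) ≤
      3 * (cls H (A, B)).card := by
  classical
  obtain ⟨-, h⟩ := tl_main hr hL hp (built_Lns hp)
  have h3 := (h hf).2
  have h1 : (tl_c H (A, B) (Lns H (A, B))).card ≤ (cls H (A, B)).card := by
    apply card_le_card
    rintro ⟨C, D⟩ hq
    have hc := (tl_mem_c.1 hq).2
    exact mem_filter.2 ⟨cls_mem_cherries hp hc, hc⟩
  have h2 : ∑ q ∈ cls H (A, B), (thirds H q).card ≤ (tl_t H (A, B) (Lns H (A, B))).card := by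
    rw [← card_sigma]
    refine card_le_card_of_injOn (fun s => (s.1.1, s.1.2, s.2)) ?_ ?_
    · rintro ⟨⟨C, D⟩, E⟩ hs
      rw [mem_coe, mem_sigma] at hs
      obtain ⟨hs1, hs2⟩ := hs
      have hcl : Cls H (A, B) (C, D) := (mem_filter.1 hs1).2
      obtain ⟨hE, htr⟩ := mem_filter.1 hs2
      have m1 := mem_Lns_of_cls hp hcl
      have m2 := mem_Lns_of_cls hp (cls_tri hp hcl hE htr).1
      exact mem_coe.2 (tl_mem_t.2 ⟨⟨m1.1, m1.2, m2.2⟩, hcl, htr⟩)
    · rintro ⟨⟨C, D⟩, E⟩ _ ⟨⟨C', D'⟩, E'⟩ _ heq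
      simp only [Prod.mk.injEq] at heq
      obtain ⟨rfl, rfl, rfl⟩ := heq
      rfl
  omega

lemma cls_card_le {H : Finset (Finset V)} {p : Finset V × Finset V} (hp : p ∈ cherries H) :
    (cls H p).card ≤ (Lns H p).card * ((Lns H p).card - 1) := by
  classical
  have : cls H p ⊆ (Lns H p).offDiag := by
    rintro ⟨C, D⟩ hq
    obtain ⟨hch, hc⟩ := mem_filter.1 hq
    have hm := mem_Lns_of_cls hp hc
    exact mem_offDiag.2 ⟨hm.1, hm.2, (mem_cherries.1 hch).2.2.1⟩
  refine (card_le_card this).trans ?_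
  rw [offDiag_card, Nat.mul_sub, mul_one]

lemma good_class {r e : ℕ} {H : Finset (Finset V)} (hr : 3 ≤ r) (hL : Lin r H)
    (hF : Free r e H) {p : Finset V × Finset V} (hp : p ∈ cherries H)
    (hf : f r (Lns H p) = 3) :
    ((e : ℤ) - 1) * ∑ q ∈ cls H p, ((thirds H q).card : ℤ) ≤
      3 * ((e : ℤ) - 3) * (cls H p).card := by
  obtain ⟨A, B⟩ := p
  have h1 := tl hr hL hp hf
  have h2 := cls_card_le hp
  have h3 := (Lns_bound hr hL hF hp).1
  set m := (Lns H (A, B)).card with hm
  set c := (cls H (A, B)).card with hc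
  have hm1 : 1 ≤ m := by
    have := (mem_Lns_of_cls hp (Relation.ReflTransGen.refl : Cls H (A, B) (A, B))).1
    exact card_pos.2 ⟨A, this⟩
  obtain ⟨m', hm'⟩ : ∃ m', m = m' + 1 := ⟨m - 1, by omega⟩
  obtain ⟨e', he'⟩ : ∃ e', e = e' + 1 := ⟨e - 1, by omega⟩
  rw [hm', Nat.add_sub_cancel] at h1 h2
  have h2' : c ≤ e' * m' := h2.trans (Nat.mul_le_mul_right _ (by omega))
  have h1z : (∑ q ∈ cls H (A, B), ((thirds H q).card : ℤ)) + 6 * m' ≤ 3 * c := by
    exact_mod_cast h1
  have h2z : (c : ℤ) ≤ e' * m' := by exact_mod_cast h2'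
  have he0 : (0 : ℤ) ≤ e' := Int.natCast_nonneg _
  rw [he']
  push_cast
  have h4 := mul_le_mul_of_nonneg_left h1z he0
  nlinarith

end Pool.Agent.Helper71.QU
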