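import Mathlib
import Pool.Agent.Helper71.QU.TL

set_option autoImplicit false

namespace Pool.Agent.Helper71.QU

open Finset

variable {V : Type*} [DecidableEq V]

lemma bad_Lns_subset (H : Finset (Finset V)) (p : Finset V × Finset V) : Lns H p ⊆ H := by
  classical
  exact Finset.filter_subset _ _

lemma bad_f_single {r : ℕ} {A : Finset V} (h : A.card = r) : f r {A} = 2 := by
  unfold f U
  rw [Finset.singleton_biUnion, id, h, Finset.card_singleton]
  push_cast
  ring

lemma bad_mem_Lns {H : Finset (Finset V)} {A B : Finset V} (h : (A, B) ∈ cherries H) :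
    A ∈ Lns H (A, B) ∧ B ∈ Lns H (A, B) :=
  mem_Lns_of_cls h Relation.ReflTransGen.refl

lemma bad_claim {r e : ℕ} {H : Finset (Finset V)} (hr : 3 ≤ r) (hL : Lin r H)
    (hF : Free r e H) (hM : MinF r 2 H) {A : Finset V} (hA : A ∈ H) (BB : Finset (Finset V)) :
    (∀ B ∈ BB, (A, B) ∈ cherries H ∧ f r (Lns H (A, B)) ≤ 2) →
    ∃ S ⊆ H, A ∈ S ∧ BB ⊆ S ∧ f r S ≤ 2 ∧ S.card < e := by
  classical
  induction BB using Finset.induction_on with
  | empty =>
    intro _
    refine ⟨{A}, Finset.singleton_subset_iff.2 hA, Finset.mem_singleton_self A,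
      Finset.empty_subset _, (bad_f_single (hL.unif A hA)).le, ?_⟩
    rw [Finset.card_singleton]
    by_contra hcon
    have he : e = 0 ∨ e = 1 := by omega
    rcases he with rfl | rfl
    · have h1 := f_of_free (by omega) hF (Finset.empty_subset H) Finset.card_empty
      unfold f U at h1
      simp at h1
    · have h1 := f_of_free (by omega) hF (Finset.singleton_subset_iff.2 hA)
        (Finset.card_singleton A)
      rw [bad_f_single (hL.unif A hA)] at h1
      norm_num at h1
  | insert B BB hB ih =>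
    intro hBB
    obtain ⟨S, hSH, hAS, hBS, hfS, hSe⟩ := ih fun B' hB' => hBB B' (Finset.mem_insert_of_mem hB')
    obtain ⟨hch, hfL⟩ := hBB B (Finset.mem_insert_self B BB)
    have h1 := f_union_le (r := r) S (Lns H (A, B))
    have h2 := hM (A, B) hch (S ∩ Lns H (A, B)) Finset.inter_subset_right
      ⟨A, Finset.mem_inter.2 ⟨hAS, (bad_mem_Lns hch).1⟩⟩
    have h3 := (ex_bound hr hL hF hSH hSe hch (by rw [Finset.insert_eq_of_mem hAS]; exact hfS)
      (built_Lns hch)).1
    refine ⟨S ∪ Lns H (A, B), Finset.union_subset hSH (bad_Lns_subset _ _),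
      Finset.mem_union_left _ hAS, ?_, by linarith, h3⟩
    exact Finset.insert_subset (Finset.mem_union_right _ (bad_mem_Lns hch).2)
      (hBS.trans Finset.subset_union_left)

open Classical in
lemma bad_count {r e : ℕ} {H : Finset (Finset V)} (hr : 3 ≤ r) (hL : Lin r H)
    (hF : Free r e H) (hM : MinF r 2 H) {A : Finset V} (hA : A ∈ H) :
    (H.filter (fun B => (A, B) ∈ cherries H ∧ f r (Lns H (A, B)) ≤ 2)).card ≤ e := by
  obtain ⟨S, -, -, hBS, -, hSe⟩ := bad_claim hr hL hF hM hA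
    (H.filter (fun B => (A, B) ∈ cherries H ∧ f r (Lns H (A, B)) ≤ 2))
    fun B hB => (Finset.mem_filter.1 hB).2
  exact (Finset.card_le_card hBS).trans hSe.le

lemma bad_thirds_le {r e : ℕ} {H : Finset (Finset V)} (hr : 3 ≤ r) (hL : Lin r H)
    (hF : Free r e H) {p : Finset V × Finset V} (hp : p ∈ cherries H) :
    (thirds H p).card ≤ e := by
  classical
  obtain ⟨A, B⟩ := p
  refine (Finset.card_le_card ?_).trans (Lns_bound hr hL hF hp).1.le
  intro C hC
  unfold thirds at hC
  obtain ⟨hCH, ht⟩ := Finset.mem_filter.1 hC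
  exact (mem_Lns_of_cls hp (cls_tri hp Relation.ReflTransGen.refl hCH ht).1).2

/-- The number of (ordered) triangles against the number of (ordered) pairs. -/
lemma tri_sum {r e : ℕ} {H : Finset (Finset V)} (hr : 3 ≤ r) (he : 3 ≤ e) (hL : Lin r H)
    (hF : Free r e H) (hM : MinF r 2 H) :
    ((e : ℤ) - 1) * ∑ p ∈ cherries H, ((thirds H p).card : ℤ) ≤
      3 * ((e : ℤ) - 3) * (cherries H).card + (e : ℤ) ^ 3 * H.card := by
  classical
  have he' : (3 : ℤ) ≤ e := by exact_mod_cast he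
  set Bd := (cherries H).filter fun p => f r (Lns H p) ≤ 2 with hBd
  set Gd := (cherries H).filter fun p => ¬ f r (Lns H p) ≤ 2 with hGd
  have hsplit : ∑ p ∈ cherries H, ((thirds H p).card : ℤ) =
      ∑ p ∈ Bd, ((thirds H p).card : ℤ) + ∑ p ∈ Gd, ((thirds H p).card : ℤ) :=
    (Finset.sum_filter_add_sum_filter_not _ _ _).symm
  have hcard : ((cherries H).card : ℤ) = Bd.card + Gd.card := by
    exact_mod_cast (Finset.card_filter_add_card_filter_not
      (s := cherries H) (fun p => f r (Lns H p) ≤ 2)).symm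
  -- the bad pairs
  have hBcard : Bd.card ≤ e * H.card := by
    have h1 : Bd ⊆ H.biUnion fun A =>
        (H.filter (fun B => (A, B) ∈ cherries H ∧ f r (Lns H (A, B)) ≤ 2)).image fun B => (A, B) := by
      rintro ⟨A, B⟩ hAB
      obtain ⟨h1, h2⟩ := Finset.mem_filter.1 hAB
      obtain ⟨hA, hB, -⟩ := mem_cherries.1 h1
      exact Finset.mem_biUnion.2 ⟨A, hA, Finset.mem_image.2
        ⟨B, Finset.mem_filter.2 ⟨hB, h1, h2⟩, rfl⟩⟩
    refine (Finset.card_le_card h1).trans (Finset.card_biUnion_le.trans ?_)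
    refine (Finset.sum_le_card_nsmul _ _ e fun A hA =>
      Finset.card_image_le.trans (bad_count hr hL hF hM hA)).trans ?_
    rw [smul_eq_mul, mul_comm]
  have hB1 : ∑ p ∈ Bd, ((thirds H p).card : ℤ) ≤ e * (e * H.card) := by
    have h1 : ∑ p ∈ Bd, (thirds H p).card ≤ Bd.card * e := by
      refine (Finset.sum_le_card_nsmul _ _ e fun p hp =>
        bad_thirds_le hr hL hF (Finset.mem_filter.1 hp).1).trans ?_
      rw [smul_eq_mul]
    have h2 : ∑ p ∈ Bd, (thirds H p).card ≤ e * (e * H.card) :=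
      h1.trans ((Nat.mul_le_mul_right e hBcard).trans (by rw [mul_comm]))
    exact_mod_cast h2
  -- the good pairs
  have hgood : ∀ p ∈ Gd, p ∈ cherries H ∧ f r (Lns H p) = 3 := by
    intro p hp
    obtain ⟨h1, h2⟩ := Finset.mem_filter.1 hp
    have h3 := (Lns_bound hr hL hF h1).2
    exact ⟨h1, by omega⟩
  have hfib : ∀ p ∈ Gd, (Gd.filter fun q => cls H q = cls H p) = cls H p := by
    intro p hp
    ext q
    constructor
    · intro hq
      obtain ⟨hqG, hqp⟩ := Finset.mem_filter.1 hq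
      rw [← hqp]
      unfold cls
      exact Finset.mem_filter.2 ⟨(hgood q hqG).1, Relation.ReflTransGen.refl⟩
    · intro hq
      unfold cls at hq
      obtain ⟨hqc, hpq⟩ := Finset.mem_filter.1 hq
      have h1 := cls_congr hpq
      refine Finset.mem_filter.2 ⟨Finset.mem_filter.2 ⟨hqc, ?_⟩, h1.1.symm⟩
      rw [← h1.2, (hgood p hp).2]
      norm_num
  have hG : ((e : ℤ) - 1) * ∑ p ∈ Gd, ((thirds H p).card : ℤ) ≤ 3 * ((e : ℤ) - 3) * Gd.card := by
    have h1 : ∑ p ∈ Gd, ((thirds H p).card : ℤ) =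
        ∑ c ∈ Gd.image (cls H), ∑ p ∈ Gd.filter (fun q => cls H q = c), ((thirds H p).card : ℤ) :=
      (Finset.sum_fiberwise_of_maps_to (fun p hp => Finset.mem_image_of_mem _ hp) _).symm
    have h2 : (Gd.card : ℤ) =
        ∑ c ∈ Gd.image (cls H), ((Gd.filter (fun q => cls H q = c)).card : ℤ) := by
      exact_mod_cast Finset.card_eq_sum_card_fiberwise
        (fun p hp => Finset.mem_coe.2 (Finset.mem_image_of_mem _ (Finset.mem_coe.1 hp)))
    rw [h1, h2, Finset.mul_sum, Finset.mul_sum]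
    refine Finset.sum_le_sum fun c hc => ?_
    obtain ⟨p, hp, rfl⟩ := Finset.mem_image.1 hc
    rw [hfib p hp]
    exact good_class hr hL hF (hgood p hp).1 (hgood p hp).2
  have hB2 : ((e : ℤ) - 1) * ∑ p ∈ Bd, ((thirds H p).card : ℤ) ≤ (e : ℤ) ^ 3 * H.card := by
    have h0 : (0 : ℤ) ≤ ∑ p ∈ Bd, ((thirds H p).card : ℤ) :=
      Finset.sum_nonneg fun p _ => Int.natCast_nonneg _
    calc ((e : ℤ) - 1) * ∑ p ∈ Bd, ((thirds H p).card : ℤ)
        ≤ (e : ℤ) * ∑ p ∈ Bd, ((thirds H p).card : ℤ) := by nlinarith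
      _ ≤ (e : ℤ) * (e * (e * H.card)) := by
          exact mul_le_mul_of_nonneg_left hB1 (by linarith)
      _ = (e : ℤ) ^ 3 * H.card := by ring
  have hB3 : (0 : ℤ) ≤ 3 * ((e : ℤ) - 3) * Bd.card := by
    have : (0 : ℤ) ≤ Bd.card := Int.natCast_nonneg _
    have h3 : (0 : ℤ) ≤ (e : ℤ) - 3 := by linarith
    positivity
  rw [hsplit, hcard, mul_add]
  nlinarith

end Pool.Agent.Helper71.QU
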