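import Mathlib

set_option autoImplicit false

namespace Pool.Agent.Helper71.QU

open Finset

variable {V : Type*} [DecidableEq V]

section GraphAux

open Classical

variable {α : Type*}

/-- The number of ordered edges inside `S`. -/
noncomputable def graph_t (R : α → α → Prop) (S : Finset α) : ℕ :=
  (S.offDiag.filter (fun p => R p.1 p.2)).card

lemma graph_disj {S T : Finset α} (hd : Disjoint S T) :
    Disjoint S.offDiag T.offDiag := by
  rw [Finset.disjoint_left]
  intro p hp hp'
  exact Finset.disjoint_left.mp hd (Finset.mem_offDiag.mp hp).1 (Finset.mem_offDiag.mp hp').1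

lemma graph_t_union_le (R : α → α → Prop) {S T : Finset α} (hd : Disjoint S T) :
    graph_t R S + graph_t R T ≤ graph_t R (S ∪ T) := by
  unfold graph_t
  rw [← Finset.card_union_of_disjoint (Finset.disjoint_filter_filter (graph_disj hd)),
    ← Finset.filter_union]
  refine Finset.card_le_card (Finset.filter_subset_filter _ ?_)
  exact Finset.union_subset (Finset.offDiag_mono Finset.subset_union_left)
    (Finset.offDiag_mono Finset.subset_union_right)

lemma graph_t_union_edge (R : α → α → Prop) (hs : ∀ a b, R a b → R b a) {S T : Finset α}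
    (hd : Disjoint S T) {a b : α} (ha : a ∈ S) (hb : b ∈ T) (hab : R a b) :
    graph_t R S + graph_t R T + 2 ≤ graph_t R (S ∪ T) := by
  unfold graph_t
  have hne : a ≠ b := by
    rintro rfl
    exact Finset.disjoint_left.mp hd ha hb
  have h2 : (({(a, b), (b, a)} : Finset (α × α))).card = 2 := by
    rw [Finset.card_pair]
    intro h
    exact hne (Prod.ext_iff.mp h).1
  rw [← h2, ← Finset.card_union_of_disjoint (Finset.disjoint_filter_filter (graph_disj hd)),
    ← Finset.filter_union, ← Finset.card_union_of_disjoint]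
  · refine Finset.card_le_card ?_
    intro p hp
    rw [Finset.mem_union, Finset.mem_filter, Finset.mem_union, Finset.mem_offDiag,
      Finset.mem_offDiag, Finset.mem_insert, Finset.mem_singleton] at hp
    rw [Finset.mem_filter, Finset.mem_offDiag, Finset.mem_union, Finset.mem_union]
    rcases hp with ⟨h | h, h'⟩ | rfl | rfl
    · exact ⟨⟨Or.inl h.1, Or.inl h.2.1, h.2.2⟩, h'⟩
    · exact ⟨⟨Or.inr h.1, Or.inr h.2.1, h.2.2⟩, h'⟩
    · exact ⟨⟨Or.inl ha, Or.inr hb, hne⟩, hab⟩
    · exact ⟨⟨Or.inr hb, Or.inl ha, hne.symm⟩, hs _ _ hab⟩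
  · rw [Finset.disjoint_left]
    intro p hp hp'
    rw [Finset.mem_filter, Finset.mem_union, Finset.mem_offDiag, Finset.mem_offDiag] at hp
    rw [Finset.mem_insert, Finset.mem_singleton] at hp'
    have haT := Finset.disjoint_left.mp hd ha
    have hbS := Finset.disjoint_right.mp hd hb
    rcases hp' with rfl | rfl
    · rcases hp.1 with h | h
      · exact hbS h.2.1
      · exact haT h.1
    · rcases hp.1 with h | h
      · exact hbS h.1
      · exact haT h.2.1

lemma graph_t_union_eq (R : α → α → Prop) (hs : ∀ a b, R a b → R b a) {S T : Finset α}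
    (hd : Disjoint S T) (hno : ∀ a ∈ S, ∀ b ∈ T, ¬ R a b) :
    graph_t R (S ∪ T) = graph_t R S + graph_t R T := by
  refine le_antisymm ?_ (graph_t_union_le R hd)
  unfold graph_t
  rw [← Finset.card_union_of_disjoint (Finset.disjoint_filter_filter (graph_disj hd)),
    ← Finset.filter_union]
  refine Finset.card_le_card ?_
  intro p hp
  rw [Finset.mem_filter, Finset.mem_offDiag, Finset.mem_union, Finset.mem_union] at hp
  rw [Finset.mem_filter, Finset.mem_union, Finset.mem_offDiag, Finset.mem_offDiag]
  refine ⟨?_, hp.2⟩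
  rcases hp with ⟨⟨h1 | h1, h2 | h2, h3⟩, h4⟩
  · exact Or.inl ⟨h1, h2, h3⟩
  · exact absurd h4 (hno _ h1 _ h2)
  · exact absurd (hs _ _ h4) (hno _ h2 _ h1)
  · exact Or.inr ⟨h1, h2, h3⟩

lemma graph_t_even (R : α → α → Prop) (hs : ∀ a b, R a b → R b a) (S : Finset α) :
    Even (graph_t R S) := by
  have h : ((graph_t R S : ℕ) : ZMod 2) = 0 := by
    unfold graph_t
    rw [Finset.card_eq_sum_ones, Nat.cast_sum]
    refine Finset.sum_involution (fun p _ => (p.2, p.1)) ?_ ?_ ?_ ?_
    · intro p _
      decide
    · intro p hp _ h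
      rw [Finset.mem_filter, Finset.mem_offDiag] at hp
      exact hp.1.2.2 (Prod.ext_iff.mp h).2
    · intro p hp
      rw [Finset.mem_filter, Finset.mem_offDiag] at hp ⊢
      exact ⟨⟨hp.1.2.1, hp.1.1, hp.1.2.2.symm⟩, hs _ _ hp.2⟩
    · intro p _
      rfl
  rw [ZMod.natCast_eq_zero_iff] at h
  exact even_iff_two_dvd.mpr h

lemma graph_t_le_sq (R : α → α → Prop) (S : Finset α) : graph_t R S ≤ S.card * S.card := by
  unfold graph_t
  refine (Finset.card_le_card (Finset.filter_subset _ _)).trans ?_
  rw [Finset.offDiag_card]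
  exact Nat.sub_le _ _

/-- The component of `v` in `M`. -/
noncomputable def graph_K (R : α → α → Prop) (M : Finset α) (v : α) : Finset α :=
  M.filter (fun w => Relation.ReflTransGen (fun a b => a ∈ M ∧ b ∈ M ∧ R a b) v w)

lemma graph_K_closed (R : α → α → Prop) (M : Finset α) (v : α) {a b : α}
    (ha : a ∈ graph_K R M v) (hb : b ∈ M) (hab : R a b) : b ∈ graph_K R M v := by
  unfold graph_K at ha ⊢
  rw [Finset.mem_filter] at ha ⊢
  exact ⟨hb, ha.2.tail ⟨ha.1, hb, hab⟩⟩

lemma graph_grow (R : α → α → Prop) (hs : ∀ a b, R a b → R b a) (M : Finset α) {v : α}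
    (hv : v ∈ M) : ∀ m : ℕ, 1 ≤ m → m ≤ (graph_K R M v).card →
      ∃ K' ⊆ graph_K R M v, K'.card = m ∧ v ∈ K' ∧ 2 * (m - 1) ≤ graph_t R K' := by
  have hvK : v ∈ graph_K R M v := by
    unfold graph_K
    rw [Finset.mem_filter]
    exact ⟨hv, Relation.ReflTransGen.refl⟩
  intro m
  induction m with
  | zero => intro h; omega
  | succ m ih =>
    intro _ hm
    by_cases hm0 : m = 0
    · subst hm0
      exact ⟨{v}, Finset.singleton_subset_iff.mpr hvK, Finset.card_singleton v,
        Finset.mem_singleton_self v, by simp⟩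
    · obtain ⟨K', hK', hcard, hvK', ht⟩ := ih (by omega) (by omega)
      -- an edge leaving K'
      have hex : ∃ a ∈ K', ∃ b ∈ graph_K R M v, b ∉ K' ∧ R a b := by
        by_contra hc
        push Not at hc
        have hall : ∀ w, Relation.ReflTransGen (fun a b => a ∈ M ∧ b ∈ M ∧ R a b) v w →
            w ∈ K' := by
          intro w hw
          induction hw with
          | refl => exact hvK'
          | tail _ hbc ih' =>
            by_contra hn
            exact hc _ ih' _ (graph_K_closed R M v (hK' ih') hbc.2.1 hbc.2.2) hn hbc.2.2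
        have hsub : graph_K R M v ⊆ K' := by
          intro w hw
          unfold graph_K at hw
          exact hall w (Finset.mem_filter.mp hw).2
        have := Finset.card_le_card hsub
        omega
      obtain ⟨a, ha, b, hb, hbK', hab⟩ := hex
      refine ⟨K' ∪ {b}, Finset.union_subset hK' (Finset.singleton_subset_iff.mpr hb), ?_,
        Finset.mem_union_left _ hvK', ?_⟩
      · rw [Finset.card_union_of_disjoint (Finset.disjoint_singleton_right.mpr hbK'), hcard,
          Finset.card_singleton]
      · have h1 := graph_t_union_edge R hs (Finset.disjoint_singleton_right.mpr hbK') ha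
          (Finset.mem_singleton_self b) hab
        omega

end GraphAux

open Classical in
/-- A graph in which every `e` vertices span at most `e - 2` edges. -/
lemma graph_lemma {α : Type*} (N : Finset α) (R : α → α → Prop) (hs : ∀ a b, R a b → R b a)
    (e : ℕ) (he : 2 ≤ e)
    (h : ∀ S ⊆ N, S.card = e → (S.offDiag.filter (fun p => R p.1 p.2)).card ≤ 2 * (e - 2)) :
    (e - 1) * (N.offDiag.filter (fun p => R p.1 p.2)).card ≤
      2 * (e - 2) * N.card + e ^ 3 := by
  change (e - 1) * graph_t R N ≤ 2 * (e - 2) * N.card + e ^ 3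
  have h' : ∀ S ⊆ N, S.card = e → graph_t R S ≤ 2 * (e - 2) := h
  -- the maximal dense set
  obtain ⟨S, hS, hmax⟩ := Finset.exists_max_image
    (N.powerset.filter (fun S => S.card < e ∧ 2 * S.card ≤ graph_t R S)) Finset.card
    ⟨∅, by
      rw [Finset.mem_filter, Finset.mem_powerset]
      exact ⟨Finset.empty_subset _, by simp; omega, by simp⟩⟩
  rw [Finset.mem_filter, Finset.mem_powerset] at hS
  obtain ⟨hSN, hSe, hSt⟩ := hS
  set M := N \ S with hM
  have hMN : M ⊆ N := Finset.sdiff_subset
  have hSM : Disjoint S M := Finset.disjoint_sdiff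
  have hKM : ∀ v, graph_K R M v ⊆ M := fun v => Finset.filter_subset _ _
  -- components are small
  have hsmall : ∀ v ∈ M, (graph_K R M v).card + S.card < e := by
    intro v hv
    by_contra hc
    obtain ⟨K', hK', hcard, _, ht⟩ := graph_grow R hs M hv (e - S.card) (by omega) (by omega)
    have hd : Disjoint S K' := Finset.disjoint_of_subset_right (hK'.trans (hKM v)) hSM
    have h1 := graph_t_union_le R hd
    have h2 := h' (S ∪ K') (Finset.union_subset hSN ((hK'.trans (hKM v)).trans hMN))
      (by rw [Finset.card_union_of_disjoint hd, hcard]; omega)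
    omega
  have hpos : ∀ v ∈ M, 1 ≤ (graph_K R M v).card := by
    intro v hv
    refine Finset.card_pos.mpr ⟨v, ?_⟩
    unfold graph_K
    rw [Finset.mem_filter]
    exact ⟨hv, Relation.ReflTransGen.refl⟩
  have hlow : ∀ v ∈ M, 2 * ((graph_K R M v).card - 1) ≤ graph_t R (graph_K R M v) := by
    intro v hv
    obtain ⟨K', hK', hcard, _, ht⟩ := graph_grow R hs M hv _ (hpos v hv) le_rfl
    have : K' = graph_K R M v := Finset.eq_of_subset_of_card_le hK' (by rw [hcard])
    rw [← this]
    rw [this]
    rw [this] at ht
    exact ht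
  have hnot : ∀ v ∈ M, ¬ 2 * (S ∪ graph_K R M v).card ≤ graph_t R (S ∪ graph_K R M v) := by
    intro v hv hc
    have hd : Disjoint S (graph_K R M v) := Finset.disjoint_of_subset_right (hKM v) hSM
    have hcard := Finset.card_union_of_disjoint hd
    have h1 := hmax (S ∪ graph_K R M v) (by
      rw [Finset.mem_filter, Finset.mem_powerset]
      refine ⟨Finset.union_subset hSN ((hKM v).trans hMN), ?_, hc⟩
      rw [hcard]
      have := hsmall v hv
      omega)
    have h2 := hpos v hv
    omega
  have hup : ∀ v ∈ M, graph_t R (graph_K R M v) ≤ 2 * ((graph_K R M v).card - 1) := by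
    intro v hv
    by_contra hc
    have hd : Disjoint S (graph_K R M v) := Finset.disjoint_of_subset_right (hKM v) hSM
    apply hnot v hv
    have h1 := graph_t_union_le R hd
    rw [Finset.card_union_of_disjoint hd]
    obtain ⟨k, hk⟩ := graph_t_even R hs (graph_K R M v)
    have := hpos v hv
    omega
  have hcross : ∀ a ∈ S, ∀ b ∈ M, ¬ R a b := by
    intro a ha b hb hab
    have hd : Disjoint S (graph_K R M b) := Finset.disjoint_of_subset_right (hKM b) hSM
    apply hnot b hb
    have hbK : b ∈ graph_K R M b := by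
      unfold graph_K
      rw [Finset.mem_filter]
      exact ⟨hb, Relation.ReflTransGen.refl⟩
    have h1 := graph_t_union_edge R hs hd ha hbK hab
    rw [Finset.card_union_of_disjoint hd]
    have h2 := hlow b hb
    have := hpos b hb
    omega
  -- closed parts
  have hclosed : ∀ n : ℕ, ∀ M' ⊆ M, M'.card = n → (∀ a ∈ M', ∀ b ∈ M, R a b → b ∈ M') →
      (e - 1) * graph_t R M' ≤ 2 * (e - 2) * M'.card := by
    intro n
    induction n using Nat.strong_induction_on with
    | _ n ih =>
      intro M' hM' hn hcl
      by_cases hemp : M' = ∅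
      · subst hemp
        simp [graph_t]
      · obtain ⟨v, hv⟩ := Finset.nonempty_iff_ne_empty.mpr hemp
        have hvM := hM' hv
        have hK : graph_K R M v ⊆ M' := by
          intro w hw
          unfold graph_K at hw
          have hw' := (Finset.mem_filter.mp hw).2
          clear hw
          induction hw' with
          | refl => exact hv
          | tail _ hbc ih' => exact hcl _ ih' _ hbc.2.1 hbc.2.2
        have hd : Disjoint (graph_K R M v) (M' \ graph_K R M v) := Finset.disjoint_sdiff
        have hno : ∀ a ∈ graph_K R M v, ∀ b ∈ M' \ graph_K R M v, ¬ R a b := by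
          intro a ha b hb hab
          rw [Finset.mem_sdiff] at hb
          exact hb.2 (graph_K_closed R M v ha (hM' hb.1) hab)
        have heq := graph_t_union_eq R hs hd hno
        rw [Finset.union_sdiff_of_subset hK] at heq
        have hcardeq := Finset.card_sdiff_add_card_eq_card hK
        have hp := hpos v hvM
        have ih1 := ih (M' \ graph_K R M v).card (by omega) (M' \ graph_K R M v)
          (Finset.sdiff_subset.trans hM') rfl (by
            intro a ha b hb hab
            rw [Finset.mem_sdiff] at ha ⊢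
            refine ⟨hcl a ha.1 b hb hab, fun hbK => ha.2 ?_⟩
            exact graph_K_closed R M v hbK (hM' ha.1) (hs _ _ hab))
        have h1 := hup v hvM
        have h2 := hsmall v hvM
        rw [heq, ← hcardeq]
        obtain ⟨k, hk⟩ : ∃ k, (graph_K R M v).card = k + 1 := ⟨_, (Nat.sub_add_cancel hp).symm⟩
        obtain ⟨e', he'⟩ : ∃ e', e = e' + 2 := ⟨_, (Nat.sub_add_cancel he).symm⟩
        rw [hk] at h1 h2 ⊢
        subst he'
        have h3 : (e' + 2 - 1) * graph_t R (graph_K R M v) ≤ 2 * (e' + 2 - 2) * (k + 1) := by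
          have h4 : (e' + 2 - 1) * graph_t R (graph_K R M v) ≤ (e' + 1) * (2 * k) :=
            Nat.mul_le_mul (by omega) (by simpa using h1)
          have h5 : k ≤ e' := by omega
          have h6 : e' + 2 - 2 = e' := by omega
          rw [h6]
          nlinarith
        nlinarith
  have hMt := hclosed _ M (Finset.Subset.refl _) rfl (fun _ _ b hb _ => hb)
  have hNeq := graph_t_union_eq R hs hSM hcross
  rw [hM, Finset.union_sdiff_of_subset hSN, ← hM] at hNeq
  have hsq := graph_t_le_sq R S
  have hcardM : M.card ≤ N.card := Finset.card_le_card hMN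
  rw [hNeq, mul_add]
  have h7 : (e - 1) * graph_t R S ≤ e ^ 3 := by
    have h8 : S.card * S.card ≤ e * e := Nat.mul_le_mul (by omega) (by omega)
    calc (e - 1) * graph_t R S ≤ e * (e * e) := Nat.mul_le_mul (by omega) (hsq.trans h8)
      _ = e ^ 3 := by ring
  have h9 : 2 * (e - 2) * M.card ≤ 2 * (e - 2) * N.card := Nat.mul_le_mul_left _ hcardM
  omega

end Pool.Agent.Helper71.QU
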