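import Mathlib
import Pool.Agent.Helper71.QU.BASE
import Pool.Agent.Helper71.QU.GRAPH

set_option autoImplicit false

namespace Pool.Agent.Helper71.QU

open Finset

variable {V : Type*} [DecidableEq V]

/-- Two lines with a common point outside `x` and `y`. -/
def codegR (x y : V) (A B : Finset V) : Prop := A ≠ B ∧ ∃ p ∈ A ∩ B, p ≠ x ∧ p ≠ y

lemma codegR_symm (x y : V) (A B : Finset V) (h : codegR x y A B) : codegR x y B A := by
  obtain ⟨h1, p, hp, hpx, hpy⟩ := h
  exact ⟨h1.symm, p, by rw [Finset.inter_comm]; exact hp, hpx, hpy⟩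

lemma codeg_lin {r : ℕ} {H : Finset (Finset V)} (hL : Lin r H) {A B : Finset V} (hA : A ∈ H)
    (hB : B ∈ H) {p q : V} (hpq : p ≠ q) (hpA : p ∈ A) (hqA : q ∈ A) (hpB : p ∈ B) (hqB : q ∈ B) :
    A = B := by
  by_contra hne
  have h1 := hL.lin A hA B hB hne
  exact hpq (Finset.card_le_one.1 h1 p (Finset.mem_inter.2 ⟨hpA, hpB⟩) q
    (Finset.mem_inter.2 ⟨hqA, hqB⟩))

open Classical in
/-- The points of the lines through `x` in `S`, without `x`. -/
lemma codeg_star {r : ℕ} {H S : Finset (Finset V)} (hL : Lin r H) (hS : S ⊆ H) (x : V)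
    (hx : ∀ A ∈ S, x ∈ A) : (S.biUnion fun A => A.erase x).card ≤ (r - 1) * S.card := by
  refine Finset.card_biUnion_le.trans ?_
  refine (Finset.sum_le_card_nsmul _ _ (r - 1) fun A hA => ?_).trans ?_
  · rw [Finset.card_erase_of_mem (hx A hA), hL.unif A (hS hA)]
  · rw [smul_eq_mul, mul_comm]

open Classical in
lemma codeg_loc {r e : ℕ} {H : Finset (Finset V)} (hr : 3 ≤ r) (he : 3 ≤ e)
    (hL : Lin r H) (hF : Free r e H) {x y : V} (hxy : x ≠ y) {S : Finset (Finset V)}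
    (hS : S ⊆ H.filter fun A => (x ∈ A ∧ y ∉ A) ∨ (y ∈ A ∧ x ∉ A)) (hc : S.card = e) :
    (S.offDiag.filter (fun p => codegR x y p.1 p.2)).card ≤ 2 * (e - 2) := by
  have hSH : S ⊆ H := hS.trans (Finset.filter_subset _ _)
  have hSxy : ∀ A ∈ S, (x ∈ A ∧ y ∉ A) ∨ (y ∈ A ∧ x ∉ A) := fun A hA =>
    (Finset.mem_filter.1 (hS hA)).2
  set Sx := S.filter fun A => x ∈ A with hSx
  set Sy := S.filter fun A => ¬ x ∈ A with hSy
  have hSyy : ∀ A ∈ Sy, y ∈ A ∧ x ∉ A := by
    intro A hA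
    obtain ⟨h1, h2⟩ := Finset.mem_filter.1 hA
    exact (hSxy A h1).resolve_left fun h => h2 h.1
  have hSxx : ∀ A ∈ Sx, x ∈ A ∧ y ∉ A := by
    intro A hA
    obtain ⟨h1, h2⟩ := Finset.mem_filter.1 hA
    exact (hSxy A h1).resolve_right fun h => h.2 h2
  have hcard : Sx.card + Sy.card = e := by
    rw [← hc]
    exact Finset.card_filter_add_card_filter_not (s := S) (fun A => x ∈ A)
  set Ux := Sx.biUnion fun A => A.erase x with hUx
  set Uy := Sy.biUnion fun A => A.erase y with hUy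
  have hUxc : Ux.card ≤ (r - 1) * Sx.card :=
    codeg_star hL ((Finset.filter_subset _ _).trans hSH) x fun A hA => (hSxx A hA).1
  have hUyc : Uy.card ≤ (r - 1) * Sy.card :=
    codeg_star hL ((Finset.filter_subset _ _).trans hSH) y fun A hA => (hSyy A hA).1
  -- the pairs
  set I := (Sx ×ˢ Sy).filter fun p => (p.1 ∩ p.2).Nonempty with hI
  have hIne : ∀ p ∈ I, (p.1 ∩ p.2).Nonempty := fun p hp => (Finset.mem_filter.1 hp).2
  have hIc : I.card ≤ (Ux ∩ Uy).card := by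
    have hch : ∀ p : Finset V × Finset V, ∃ v : V, p ∈ I → v ∈ p.1 ∩ p.2 := by
      intro p
      by_cases hp : p ∈ I
      · obtain ⟨v, hv⟩ := hIne p hp
        exact ⟨v, fun _ => hv⟩
      · exact ⟨x, fun h => absurd h hp⟩
    choose g hg using hch
    refine Finset.card_le_card_of_injOn g ?_ ?_
    · intro p hp
      have hp := Finset.mem_coe.1 hp
      have h1 := Finset.mem_inter.1 (hg p hp)
      obtain ⟨h2, -⟩ := Finset.mem_filter.1 hp
      obtain ⟨h3, h4⟩ := Finset.mem_product.1 h2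
      refine Finset.mem_coe.2 (Finset.mem_inter.2 ⟨Finset.mem_biUnion.2 ⟨p.1, h3, ?_⟩,
        Finset.mem_biUnion.2 ⟨p.2, h4, ?_⟩⟩)
      · exact Finset.mem_erase.2 ⟨fun h => (hSyy p.2 h4).2 (h ▸ h1.2), h1.1⟩
      · exact Finset.mem_erase.2 ⟨fun h => (hSxx p.1 h3).2 (h ▸ h1.1), h1.2⟩
    · intro p hp q hq hpq
      have hp := Finset.mem_coe.1 hp
      have hq := Finset.mem_coe.1 hq
      have h1 := Finset.mem_inter.1 (hg p hp)
      have h1' := Finset.mem_inter.1 (hg q hq)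
      obtain ⟨h2, -⟩ := Finset.mem_filter.1 hp
      obtain ⟨h3, h4⟩ := Finset.mem_product.1 h2
      obtain ⟨h2', -⟩ := Finset.mem_filter.1 hq
      obtain ⟨h3', h4'⟩ := Finset.mem_product.1 h2'
      have hgx : g p ≠ x := fun h => (hSyy p.2 h4).2 (h ▸ h1.2)
      have hgy : g p ≠ y := fun h => (hSxx p.1 h3).2 (h ▸ h1.1)
      refine Prod.ext ?_ ?_
      · exact codeg_lin hL (hSH (Finset.mem_filter.1 h3).1) (hSH (Finset.mem_filter.1 h3').1)
          hgx h1.1 (hSxx _ h3).1 (hpq ▸ h1'.1) (hSxx _ h3').1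
      · exact codeg_lin hL (hSH (Finset.mem_filter.1 h4).1) (hSH (Finset.mem_filter.1 h4').1)
          hgy h1.2 (hSyy _ h4).1 (hpq ▸ h1'.2) (hSyy _ h4').1
  have hT : (S.offDiag.filter (fun p => codegR x y p.1 p.2)).card ≤ 2 * I.card := by
    have h1 : S.offDiag.filter (fun p => codegR x y p.1 p.2) ⊆ I ∪ I.image Prod.swap := by
      rintro ⟨A, B⟩ hAB
      obtain ⟨h1, h2, p, hp, hpx, hpy⟩ := Finset.mem_filter.1 hAB
      obtain ⟨hA, hB, -⟩ := Finset.mem_offDiag.1 h1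
      simp only at hA hB h2 hp
      obtain ⟨hpA, hpB⟩ := Finset.mem_inter.1 hp
      rcases hSxy A hA with ⟨hxA, hyA⟩ | ⟨hyA, hxA⟩
      · rcases hSxy B hB with ⟨hxB, hyB⟩ | ⟨hyB, hxB⟩
        · exact absurd (codeg_lin hL (hSH hA) (hSH hB) hpx hpA hxA hpB hxB) h2
        · refine Finset.mem_union_left _ (Finset.mem_filter.2 ⟨Finset.mem_product.2
            ⟨Finset.mem_filter.2 ⟨hA, hxA⟩, Finset.mem_filter.2 ⟨hB, hxB⟩⟩, ⟨p, hp⟩⟩)
      · rcases hSxy B hB with ⟨hxB, hyB⟩ | ⟨hyB, hxB⟩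
        · refine Finset.mem_union_right _ (Finset.mem_image.2 ⟨(B, A), Finset.mem_filter.2
            ⟨Finset.mem_product.2 ⟨Finset.mem_filter.2 ⟨hB, hxB⟩, Finset.mem_filter.2 ⟨hA, hxA⟩⟩,
              ⟨p, Finset.mem_inter.2 ⟨hpB, hpA⟩⟩⟩, rfl⟩)
        · exact absurd (codeg_lin hL (hSH hA) (hSH hB) hpy hpA hyA hpB hyB) h2
    refine (Finset.card_le_card h1).trans ((Finset.card_union_le _ _).trans ?_)
    have := Finset.card_image_le (s := I) (f := Prod.swap)
    omega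
  -- the union
  have hU : (U S).card ≤ 2 + (Ux ∪ Uy).card := by
    have h1 : U S ⊆ {x, y} ∪ (Ux ∪ Uy) := by
      intro v hv
      unfold U at hv
      obtain ⟨A, hA, hvA⟩ := Finset.mem_biUnion.1 hv
      by_cases hvx : v = x
      · simp [hvx]
      · by_cases hvy : v = y
        · simp [hvy]
        · refine Finset.mem_union_right _ ?_
          by_cases hxA : x ∈ A
          · exact Finset.mem_union_left _ (Finset.mem_biUnion.2
              ⟨A, Finset.mem_filter.2 ⟨hA, hxA⟩, Finset.mem_erase.2 ⟨hvx, hvA⟩⟩)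
          · exact Finset.mem_union_right _ (Finset.mem_biUnion.2
              ⟨A, Finset.mem_filter.2 ⟨hA, hxA⟩, Finset.mem_erase.2 ⟨hvy, hvA⟩⟩)
    refine (Finset.card_le_card h1).trans ((Finset.card_union_le _ _).trans ?_)
    have := Finset.card_le_two (a := x) (b := y)
    omega
  have h1 := hF S hSH hc
  have h2 := Finset.card_union_add_card_inter Ux Uy
  have h3 : (r - 1) * Sx.card + (r - 1) * Sy.card = (r - 1) * e := by rw [← mul_add, hcard]
  have h4 : (r - 1) * e = (r - 2) * e + e := by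
    have : r - 1 = (r - 2) + 1 := by omega
    rw [this]; ring
  omega

lemma codeg_le [Fintype V] {r e : ℕ} {H : Finset (Finset V)} (hr : 3 ≤ r) (he : 3 ≤ e)
    (hL : Lin r H) (hF : Free r e H) {x y : V} (hxy : x ≠ y) :
    (e - 1) * codeg H x y ≤ (e - 2) * (dg H x + dg H y) + (e ^ 3 + e * r) := by
  classical
  set N := H.filter fun A => (x ∈ A ∧ y ∉ A) ∨ (y ∈ A ∧ x ∉ A) with hN
  have hgl := graph_lemma N (codegR x y) (codegR_symm x y) e (by omega)
    fun S hS hc => codeg_loc hr he hL hF hxy hS hc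
  set T := N.offDiag.filter (fun p => codegR x y p.1 p.2) with hT
  have hNc : N.card ≤ dg H x + dg H y := by
    have : N ⊆ (H.filter fun A => x ∈ A) ∪ (H.filter fun A => y ∈ A) := by
      intro A hA
      obtain ⟨h1, h2⟩ := Finset.mem_filter.1 hA
      rcases h2 with h2 | h2
      · exact Finset.mem_union_left _ (Finset.mem_filter.2 ⟨h1, h2.1⟩)
      · exact Finset.mem_union_right _ (Finset.mem_filter.2 ⟨h1, h2.1⟩)
    refine (Finset.card_le_card this).trans ((Finset.card_union_le _ _).trans ?_)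
    unfold dg
    convert le_refl _
  -- the common neighbours on a line through x and y
  set P := (univ : Finset V).filter (fun p => Adj H x p ∧ Adj H y p) with hP
  set P1 := P.filter fun p => ∃ A ∈ H, x ∈ A ∧ y ∈ A ∧ p ∈ A with hP1
  set P2 := P.filter fun p => ¬ ∃ A ∈ H, x ∈ A ∧ y ∈ A ∧ p ∈ A with hP2
  have hPc : P1.card + P2.card = P.card := Finset.card_filter_add_card_filter_not _
  have hP1c : P1.card ≤ r := by
    by_cases hline : ∃ A ∈ H, x ∈ A ∧ y ∈ A
    · obtain ⟨A, hA, hxA, hyA⟩ := hline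
      rw [← hL.unif A hA]
      refine Finset.card_le_card fun p hp => ?_
      obtain ⟨-, B, hB, hxB, hyB, hpB⟩ := Finset.mem_filter.1 hp
      rw [codeg_lin hL hA hB hxy hxA hyA hxB hyB]
      exact hpB
    · have : P1 = ∅ := by
        rw [Finset.eq_empty_iff_forall_notMem]
        intro p hp
        obtain ⟨-, B, hB, hxB, hyB, -⟩ := Finset.mem_filter.1 hp
        exact hline ⟨B, hB, hxB, hyB⟩
      rw [this, Finset.card_empty]
      exact Nat.zero_le _
  have hch : ∀ p : V, ∃ q : Finset V × Finset V, p ∈ P2 → q.1 ∈ H ∧ q.2 ∈ H ∧ x ∈ q.1 ∧ p ∈ q.1 ∧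
      y ∉ q.1 ∧ y ∈ q.2 ∧ p ∈ q.2 ∧ x ∉ q.2 ∧ p ≠ x ∧ p ≠ y := by
    intro p
    by_cases hp : p ∈ P2
    · obtain ⟨h1, h2⟩ := Finset.mem_filter.1 hp
      obtain ⟨-, ⟨hxp, A, hA, hxA, hpA⟩, ⟨hyp, B, hB, hyB, hpB⟩⟩ := Finset.mem_filter.1 h1
      exact ⟨(A, B), fun _ => ⟨hA, hB, hxA, hpA, fun h => h2 ⟨A, hA, hxA, h, hpA⟩, hyB, hpB,
        fun h => h2 ⟨B, hB, h, hyB, hpB⟩, hxp.symm, hyp.symm⟩⟩
    · exact ⟨(∅, ∅), fun h => absurd h hp⟩
  choose g hg using hch
  have hTc : 2 * P2.card ≤ T.card := by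
    have h1 : P2.image g ∪ P2.image (fun p => (g p).swap) ⊆ T := by
      intro q hq
      rcases Finset.mem_union.1 hq with hq | hq
      · obtain ⟨p, hp, rfl⟩ := Finset.mem_image.1 hq
        obtain ⟨h1, h2, h3, h4, h5, h6, h7, h8, h9, h10⟩ := hg p hp
        have hne : (g p).1 ≠ (g p).2 := fun h => h8 (h ▸ h3)
        exact Finset.mem_filter.2 ⟨Finset.mem_offDiag.2
          ⟨Finset.mem_filter.2 ⟨h1, Or.inl ⟨h3, h5⟩⟩, Finset.mem_filter.2 ⟨h2, Or.inr ⟨h6, h8⟩⟩, hne⟩,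
          hne, p, Finset.mem_inter.2 ⟨h4, h7⟩, h9, h10⟩
      · obtain ⟨p, hp, rfl⟩ := Finset.mem_image.1 hq
        obtain ⟨h1, h2, h3, h4, h5, h6, h7, h8, h9, h10⟩ := hg p hp
        have hne : (g p).2 ≠ (g p).1 := fun h => h8 (h ▸ h3)
        exact Finset.mem_filter.2 ⟨Finset.mem_offDiag.2
          ⟨Finset.mem_filter.2 ⟨h2, Or.inr ⟨h6, h8⟩⟩, Finset.mem_filter.2 ⟨h1, Or.inl ⟨h3, h5⟩⟩, hne⟩,
          hne, p, Finset.mem_inter.2 ⟨h7, h4⟩, h9, h10⟩
    have hinj : ∀ p ∈ P2, ∀ q ∈ P2, g p = g q → p = q := by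
      intro p hp q hq hpq
      obtain ⟨h1, h2, h3, h4, h5, h6, h7, h8, h9, h10⟩ := hg p hp
      obtain ⟨h1', h2', h3', h4', h5', h6', h7', h8', h9', h10'⟩ := hg q hq
      by_contra hne
      have := codeg_lin hL h1 h2 hne h4 (by rw [hpq]; exact h4') h7 (by rw [hpq]; exact h7')
      exact h8 (this ▸ h3)
    have h2 : (P2.image g).card = P2.card :=
      Finset.card_image_of_injOn fun p hp q hq h => hinj p hp q hq h
    have h3 : (P2.image (fun p => (g p).swap)).card = P2.card :=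
      Finset.card_image_of_injOn fun p hp q hq h => hinj p hp q hq (Prod.swap_injective h)
    have h4 : Disjoint (P2.image g) (P2.image (fun p => (g p).swap)) := by
      rw [Finset.disjoint_left]
      intro q hq hq'
      obtain ⟨p, hp, rfl⟩ := Finset.mem_image.1 hq
      obtain ⟨p', hp', h5⟩ := Finset.mem_image.1 hq'
      obtain ⟨-, -, h6, -⟩ := hg p hp
      obtain ⟨-, -, -, -, -, -, -, h7, -⟩ := hg p' hp'
      have : (g p).1 = (g p').2 := by rw [← h5]; rfl
      exact h7 (this ▸ h6)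
    have h5 := Finset.card_le_card h1
    rw [Finset.card_union_of_disjoint h4, h2, h3] at h5
    omega
  have hcod : codeg H x y = P.card := by
    unfold codeg
    congr
  have h1 : 2 * P.card ≤ T.card + 2 * r := by omega
  have h2 : (e - 1) * (2 * P.card) ≤ (e - 1) * (T.card + 2 * r) := Nat.mul_le_mul_left _ h1
  have h3 : 2 * (e - 2) * N.card ≤ 2 * (e - 2) * (dg H x + dg H y) := Nat.mul_le_mul_left _ hNc
  have h4 : (e - 1) * r ≤ e * r := Nat.mul_le_mul_right _ (by omega)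
  rw [hcod]
  have h5 : (e - 1) * (2 * P.card) = 2 * ((e - 1) * P.card) := by ring
  have h6 : (e - 1) * (T.card + 2 * r) = (e - 1) * T.card + 2 * ((e - 1) * r) := by ring
  have h7 : 2 * (e - 2) * (dg H x + dg H y) = 2 * ((e - 2) * (dg H x + dg H y)) := by ring
  have h8 : (e - 1) * T.card ≤ 2 * (e - 2) * N.card + e ^ 3 := hgl
  omega

end Pool.Agent.Helper71.QU
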