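import Mathlib
import Pool.Agent.Helper71.QU.EX

set_option autoImplicit false

namespace Pool.Agent.Helper71.QU

open Finset

variable {V : Type*} [DecidableEq V]

lemma del_Lns_subset (H : Finset (Finset V)) (p : Finset V × Finset V) : Lns H p ⊆ H := by
  classical
  exact Finset.filter_subset _ _

open Classical in
/-- The sets of small excess through a point. -/
noncomputable def delF (r e : ℕ) (a : ℤ) (H : Finset (Finset V)) (v : V) :
    Finset (Finset (Finset V)) :=
  H.powerset.filter fun S => v ∈ U S ∧ f r S ≤ a ∧ S.card < e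

open Classical in
/-- A set of maximal cardinality in `delF`. -/
noncomputable def delS (r e : ℕ) (a : ℤ) (H : Finset (Finset V)) (v : V) : Finset (Finset V) :=
  if h : (delF r e a H v).Nonempty then (Finset.exists_max_image (delF r e a H v) Finset.card h).choose
  else ∅

lemma delS_spec {r e : ℕ} {a : ℤ} {H : Finset (Finset V)} {v : V}
    (h : (delF r e a H v).Nonempty) : delS r e a H v ∈ delF r e a H v ∧
      ∀ S ∈ delF r e a H v, S.card ≤ (delS r e a H v).card := by
  unfold delS
  rw [dif_pos h]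
  exact (Finset.exists_max_image (delF r e a H v) Finset.card h).choose_spec

lemma delS_card (r e : ℕ) (a : ℤ) (H : Finset (Finset V)) (v : V) :
    (delS r e a H v).card ≤ e := by
  classical
  by_cases h : (delF r e a H v).Nonempty
  · have h1 := (delS_spec h).1
    unfold delF at h1
    exact (Finset.mem_filter.1 h1).2.2.2.le
  · unfold delS
    rw [dif_neg h, Finset.card_empty]
    exact Nat.zero_le _

lemma mem_delF {r e : ℕ} {a : ℤ} {H S : Finset (Finset V)} {v : V} :
    S ∈ delF r e a H v ↔ S ⊆ H ∧ v ∈ U S ∧ f r S ≤ a ∧ S.card < e := by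
  classical
  unfold delF
  rw [Finset.mem_filter, Finset.mem_powerset]

lemma del_claim {r e : ℕ} {H : Finset (Finset V)} (hr : 3 ≤ r) (hL : Lin r H)
    (hF : Free r e H) {a : ℤ} (ha : a ≤ 1) (hM : MinF r a H) {R : Finset (Finset V)}
    {p : Finset V × Finset V} (hp : p ∈ cherries H) (hR : R ⊆ Lns H p) (hfR : f r R ≤ a)
    {v : V} (hv : v ∈ U R) : R ⊆ delS r e a H v := by
  classical
  have hRH : R ⊆ H := hR.trans (del_Lns_subset H p)
  have hRe : R.card < e := lt_of_le_of_lt (Finset.card_le_card hR) (Lns_bound hr hL hF hp).1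
  have hRF : R ∈ delF r e a H v := mem_delF.2 ⟨hRH, hv, hfR, hRe⟩
  obtain ⟨h1, h2⟩ := delS_spec ⟨R, hRF⟩
  set S := delS r e a H v with hS
  obtain ⟨hSH, hvS, hfS, hSe⟩ := mem_delF.1 h1
  have hfSR : f r (S ∪ R) ≤ a := by
    by_cases hint : (S ∩ R).Nonempty
    · have h3 := f_union_le (r := r) S R
      have h4 := hM p hp (S ∩ R) (Finset.inter_subset_right.trans hR) hint
      linarith
    · rw [Finset.not_nonempty_iff_eq_empty] at hint
      have h3 := f_union_disj (r := r) (Finset.disjoint_iff_inter_eq_empty.2 hint)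
        ⟨v, Finset.mem_inter.2 ⟨hvS, hv⟩⟩
      linarith
  have hcard : (S ∪ R).card < e := by
    obtain ⟨g, hg, hvg⟩ := Finset.mem_biUnion.1 hv
    have hg' := hR hg
    unfold Lns at hg'
    obtain ⟨hgH, h', hcls⟩ := Finset.mem_filter.1 hg'
    have hch := cls_mem_cherries hp hcls
    have hfg : f r (insert g S) ≤ 2 := by
      by_cases hgS : g ∈ S
      · rw [Finset.insert_eq_of_mem hgS]
        linarith
      · rw [f_insert (hL.unif g hgH) hgS]
        have : 0 < (g ∩ U S).card := Finset.card_pos.2 ⟨v, Finset.mem_inter.2 ⟨hvg, hvS⟩⟩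
        have : (1 : ℤ) ≤ ((g ∩ U S).card : ℤ) := by exact_mod_cast this
        linarith
    have h5 := (ex_bound hr hL hF hSH hSe hch hfg (built_Lns hch)).1
    rw [← (cls_congr hcls).2] at h5
    exact lt_of_le_of_lt (Finset.card_le_card (Finset.union_subset_union_right hR)) h5
  have h6 := h2 (S ∪ R) (mem_delF.2 ⟨Finset.union_subset hSH hRH,
    by
      unfold U at hvS ⊢
      obtain ⟨g, hg, hvg⟩ := Finset.mem_biUnion.1 hvS
      exact Finset.mem_biUnion.2 ⟨g, Finset.mem_union_left _ hg, hvg⟩, hfSR, hcard⟩)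
  have h7 := Finset.eq_of_subset_of_card_le (Finset.subset_union_left (s₁ := S) (s₂ := R)) h6
  rw [h7]
  exact Finset.subset_union_right

lemma deletion_step {r e : ℕ} {H : Finset (Finset V)} [Fintype V] (hr : 3 ≤ r) (hL : Lin r H)
    (hF : Free r e H) {a : ℤ} (ha : a ≤ 1) (hM : MinF r a H) :
    ∃ H' ⊆ H, MinF r (a + 1) H' ∧ H.card ≤ H'.card + e * Fintype.card V := by
  classical
  set RR : Finset (Finset (Finset V)) := H.powerset.filter fun R =>
    R.Nonempty ∧ (∃ p ∈ cherries H, R ⊆ Lns H p) ∧ f r R ≤ a with hRR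
  set D : Finset (Finset V) := RR.biUnion id with hD
  refine ⟨H \ D, Finset.sdiff_subset, ?_, ?_⟩
  · intro p hp R hR hRne
    have hp' := cherries_mono (Finset.sdiff_subset (s := H) (t := D)) hp
    have hR' : R ⊆ Lns H p := hR.trans (Lns_mono Finset.sdiff_subset p)
    have h1 := hM p hp' R hR' hRne
    by_contra hcon
    have h2 : f r R ≤ a := by
      push Not at hcon
      linarith [Int.lt_add_one_iff.1 hcon]
    have h3 : R ∈ RR := Finset.mem_filter.2 ⟨Finset.mem_powerset.2 (hR'.trans (del_Lns_subset H p)),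
      hRne, ⟨p, hp', hR'⟩, h2⟩
    obtain ⟨g, hg⟩ := hRne
    have h4 : g ∈ H \ D := del_Lns_subset _ _ (hR hg)
    exact (Finset.mem_sdiff.1 h4).2 (Finset.mem_biUnion.2 ⟨R, h3, hg⟩)
  · have hDsub : D ⊆ (Finset.univ : Finset V).biUnion fun v => delS r e a H v := by
      intro C hC
      obtain ⟨R, hR, hCR⟩ := Finset.mem_biUnion.1 hC
      obtain ⟨hRH, -, ⟨p, hp, hRp⟩, hfR⟩ := Finset.mem_filter.1 hR
      have hCH : C ∈ H := Finset.mem_powerset.1 hRH hCR
      have hCne : C.Nonempty := by
        rw [← Finset.card_pos, hL.unif C hCH]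
        omega
      obtain ⟨v, hv⟩ := hCne
      have hvU : v ∈ U R := Finset.mem_biUnion.2 ⟨C, hCR, hv⟩
      exact Finset.mem_biUnion.2 ⟨v, Finset.mem_univ v,
        del_claim hr hL hF ha hM hp hRp hfR hvU hCR⟩
    have hDc : D.card ≤ e * Fintype.card V := by
      refine (Finset.card_le_card hDsub).trans (Finset.card_biUnion_le.trans ?_)
      refine (Finset.sum_le_card_nsmul _ _ e fun v _ => delS_card r e a H v).trans ?_
      rw [Finset.card_univ, smul_eq_mul, mul_comm]
    have := Finset.card_sdiff_add_card H D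
    have h3 := Finset.card_le_card (Finset.subset_union_left (s₁ := H) (s₂ := D))
    omega

lemma deletion {r e : ℕ} {H : Finset (Finset V)} [Fintype V] (hr : 3 ≤ r) (hL : Lin r H)
    (hF : Free r e H) :
    ∃ H' ⊆ H, MinF r 2 H' ∧ H.card ≤ H'.card + (r * e + 2) * (e * Fintype.card V) := by
  have key : ∀ (k : ℕ) (H : Finset (Finset V)), Lin r H → Free r e H → MinF r (2 - (k : ℤ)) H →
      ∃ H' ⊆ H, MinF r 2 H' ∧ H.card ≤ H'.card + k * (e * Fintype.card V) := by
    intro k
    induction k with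
    | zero =>
      intro H _ _ hM
      refine ⟨H, Finset.Subset.refl _, ?_, by omega⟩
      simpa using hM
    | succ k ih =>
      intro H hL hF hM
      obtain ⟨H1, hs1, hM1, hc1⟩ := deletion_step hr hL hF (a := 2 - ((k + 1 : ℕ) : ℤ))
        (by push_cast; linarith [Int.natCast_nonneg k]) hM
      have hM1' : MinF r (2 - (k : ℤ)) H1 := by
        have : (2 - ((k + 1 : ℕ) : ℤ)) + 1 = 2 - (k : ℤ) := by push_cast; ring
        rw [← this]
        exact hM1
      obtain ⟨H2, hs2, hM2, hc2⟩ := ih H1 (hL.mono hs1) (hF.mono hs1) hM1'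
      refine ⟨H2, hs2.trans hs1, hM2, ?_⟩
      have : (k + 1) * (e * Fintype.card V) = k * (e * Fintype.card V) + e * Fintype.card V := by ring
      omega
  refine key (r * e + 2) H hL hF ?_
  intro p hp R hR _
  have h1 := f_ge (r := r) R
  have h2 := (Lns_bound hr hL hF hp).1
  have h3 : R.card ≤ e := (Finset.card_le_card hR).trans h2.le
  have h4 : (r : ℤ) * R.card ≤ r * e := by
    exact_mod_cast Nat.mul_le_mul_left r h3
  push_cast
  linarith

end Pool.Agent.Helper71.QU
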