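import Mathlib
import Pool.Agent.Helper71.QU.Defs

/-!
# Incidence sums, for module FIN
-/

set_option autoImplicit false
set_option linter.unusedSectionVars false

namespace Pool.Agent.Helper71.QU

open Finset

variable {V : Type*} [DecidableEq V] [Fintype V]

open Classical in
/-- The adjacency indicator. -/
noncomputable def fin_w (H : Finset (Finset V)) (x y : V) : ℝ := if Adj H x y then 1 else 0

lemma fin_w_symm (H : Finset (Finset V)) (x y : V) : fin_w H x y = fin_w H y x := by
  unfold fin_w Adj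
  congr 1
  apply propext
  constructor
  · rintro ⟨h1, A, hA, h2, h3⟩
    exact ⟨h1.symm, A, hA, h3, h2⟩
  · rintro ⟨h1, A, hA, h2, h3⟩
    exact ⟨h1.symm, A, hA, h3, h2⟩

lemma fin_w_01 (H : Finset (Finset V)) (x y : V) : fin_w H x y = 0 ∨ fin_w H x y = 1 := by
  unfold fin_w
  split_ifs
  · right; rfl
  · left; rfl

lemma fin_w_nonneg (H : Finset (Finset V)) (x y : V) : 0 ≤ fin_w H x y := by
  rcases fin_w_01 H x y with h | h <;> rw [h] <;> norm_num

lemma fin_w_le (H : Finset (Finset V)) (x y : V) : fin_w H x y ≤ 1 := by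
  rcases fin_w_01 H x y with h | h <;> rw [h] <;> norm_num

lemma fin_codeg (H : Finset (Finset V)) (x y : V) :
    ∑ p, fin_w H x p * fin_w H y p = codeg H x y := by
  classical
  unfold codeg
  rw [card_filter, Nat.cast_sum]
  apply sum_congr rfl
  intro p _
  unfold fin_w
  by_cases h1 : Adj H x p <;> by_cases h2 : Adj H y p <;> simp [h1, h2]

lemma fin_X3 (H : Finset (Finset V)) :
    (X3 H : ℝ) = ∑ x, ∑ y, fin_w H x y * codeg H x y := by
  classical
  have h1 : (X3 H : ℝ) = ∑ x, ∑ y, ∑ p, fin_w H x y * (fin_w H x p * fin_w H y p) := by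
    unfold X3
    rw [card_filter, Nat.cast_sum, ← univ_product_univ, sum_product]
    apply sum_congr rfl
    intro x _
    rw [← univ_product_univ, sum_product]
    apply sum_congr rfl
    intro y _
    apply sum_congr rfl
    intro p _
    unfold fin_w
    by_cases h1 : Adj H x y <;> by_cases h2 : Adj H x p <;> by_cases h3 : Adj H y p <;>
      simp [h1, h2, h3]
  rw [h1]
  apply sum_congr rfl
  intro x _
  apply sum_congr rfl
  intro y _
  rw [← mul_sum, fin_codeg]

/-- Sum over incidences. -/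
lemma fin_sum_inc (H : Finset (Finset V)) (h : V → ℝ) :
    ∑ A ∈ H, ∑ x ∈ A, h x = ∑ x, (dg H x : ℝ) * h x := by
  have h1 : ∀ A ∈ H, ∑ x ∈ A, h x = ∑ x : V, if x ∈ A then h x else 0 := by
    intro A _
    rw [← sum_filter]
    apply sum_congr _ (fun _ _ => rfl)
    ext x; simp
  rw [sum_congr rfl h1, sum_comm]
  apply sum_congr rfl
  intro x _
  rw [← sum_filter, sum_const, nsmul_eq_mul]
  rfl

/-- Sum over ordered pairs of different points inside the lines. -/
lemma fin_sum_pairs {r : ℕ} {H : Finset (Finset V)} (hL : Lin r H) (g : V → V → ℝ) :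
    ∑ A ∈ H, ∑ q ∈ A.offDiag, g q.1 q.2 = ∑ x, ∑ y, fin_w H x y * g x y := by
  classical
  rw [← sum_product', univ_product_univ]
  have h1 : ∀ A ∈ H, ∑ q ∈ A.offDiag, g q.1 q.2 =
      ∑ q : V × V, if q ∈ A.offDiag then g q.1 q.2 else 0 := by
    intro A _
    rw [← sum_filter]
    apply sum_congr _ (fun _ _ => rfl)
    ext x; simp
  rw [sum_congr rfl h1, sum_comm]
  apply sum_congr rfl
  rintro ⟨x, y⟩ _
  unfold fin_w
  by_cases hxy : Adj H x y
  · obtain ⟨hne, A, hA, hx, hy⟩ := hxy
    rw [if_pos ⟨hne, A, hA, hx, hy⟩, one_mul]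
    rw [sum_eq_single A]
    · rw [if_pos (mem_offDiag.2 ⟨hx, hy, hne⟩)]
    · intro B hB hBA
      rw [if_neg]
      intro hq
      obtain ⟨hx', hy', -⟩ := mem_offDiag.1 hq
      have h2 := hL.lin B hB A hA hBA
      have h3 : ({x, y} : Finset V) ⊆ B ∩ A := by
        intro z hz
        rcases mem_insert.1 hz with h | h
        · rw [h]; exact mem_inter.2 ⟨hx', hx⟩
        · rw [mem_singleton.1 h]; exact mem_inter.2 ⟨hy', hy⟩
      have h4 := card_le_card h3
      rw [card_pair hne] at h4
      omega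
    · intro h; exact absurd hA h
  · rw [if_neg hxy, zero_mul]
    apply sum_eq_zero
    intro A hA
    rw [if_neg]
    intro hq
    obtain ⟨hx', hy', hne⟩ := mem_offDiag.1 hq
    exact hxy ⟨hne, A, hA, hx', hy'⟩

/-- The number of neighbours. -/
lemma fin_sum_w {r : ℕ} {H : Finset (Finset V)} (hr : 1 ≤ r) (hL : Lin r H) (x : V) :
    ∑ y, fin_w H x y = ((r : ℝ) - 1) * dg H x := by
  classical
  have h := fin_sum_pairs hL (fun a _ => if a = x then (1 : ℝ) else 0)
  have h2 : ∑ a, ∑ y, fin_w H a y * (if a = x then (1 : ℝ) else 0) = ∑ y, fin_w H x y := by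
    rw [sum_eq_single x]
    · simp
    · intro b _ hb
      simp [hb]
    · intro h; exact absurd (mem_univ _) h
  rw [← h2, ← h]
  have h3 : ∀ A ∈ H, ∑ q ∈ A.offDiag, (if q.1 = x then (1 : ℝ) else 0) =
      if x ∈ A then (r : ℝ) - 1 else 0 := by
    intro A hA
    rw [← sum_filter, sum_const, nsmul_eq_mul, mul_one]
    by_cases hx : x ∈ A
    · rw [if_pos hx]
      have : A.offDiag.filter (fun q => q.1 = x) = (A.erase x).image (fun y => (x, y)) := by
        ext ⟨a, b⟩
        simp only [mem_filter, mem_offDiag, mem_image, mem_erase, Prod.mk.injEq]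
        constructor
        · rintro ⟨⟨h1, h2, h3⟩, h4⟩
          exact ⟨b, ⟨fun h => h3 (h4.trans h.symm), h2⟩, h4.symm, rfl⟩
        · rintro ⟨c, ⟨h1, h2⟩, h3, h4⟩
          subst h3 h4
          exact ⟨⟨hx, h2, fun h => h1 h.symm⟩, rfl⟩
      rw [this, card_image_of_injective _ (fun a b hab => (Prod.mk.inj hab).2), card_erase_of_mem hx,
        hL.unif A hA]
      push_cast [Nat.cast_sub hr]
      rfl
    · rw [if_neg hx]
      have : A.offDiag.filter (fun q => q.1 = x) = ∅ := by
        ext ⟨a, b⟩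
        simp only [mem_filter, mem_offDiag, notMem_empty, iff_false, not_and]
        rintro ⟨h1, -, -⟩ h4
        exact hx (h4 ▸ h1)
      rw [this]; simp
  rw [sum_congr rfl h3, ← sum_filter, sum_const, nsmul_eq_mul, mul_comm]
  rfl

/-- The square of a sum over a line. -/
lemma fin_sq_line (A : Finset V) (g : V → ℝ) :
    (∑ x ∈ A, g x) ^ 2 = ∑ q ∈ A.offDiag, g q.1 * g q.2 + ∑ x ∈ A, g x ^ 2 := by
  classical
  rw [sq, sum_mul_sum, ← sum_product', ← diag_union_offDiag A, sum_union (disjoint_diag_offDiag A)]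
  rw [add_comm]
  congr 1
  rw [sum_diag]
  apply sum_congr rfl
  intros
  ring

end Pool.Agent.Helper71.QU
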