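import Mathlib
import Pool.Agent.Helper71.QU.FINA
import Pool.Agent.Helper71.QU.FINB

/-!
# Averaged codegrees, for module FIN
-/

set_option autoImplicit false
set_option linter.unusedSectionVars false

namespace Pool.Agent.Helper71.QU

open Finset

variable {V β : Type*} [DecidableEq V] [Fintype V] [DecidableEq β]

/-- The averaged neighbourhood. -/
noncomputable def fin_F (H : Finset (Finset V)) (π : V → β) (x p : V) : ℝ :=
  fin_av π (fun x' => fin_w H x' p) x

/-- The averaged codegree. -/
noncomputable def fin_cb (H : Finset (Finset V)) (π : V → β) (x y : V) : ℝ :=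
  ∑ p, fin_F H π x p * fin_F H π y p

lemma fin_F_nonneg (H : Finset (Finset V)) (π : V → β) (x p : V) : 0 ≤ fin_F H π x p :=
  fin_av_nonneg π (fun _ => fin_w_nonneg H _ _) x

lemma fin_cb_eq (H : Finset (Finset V)) (π : V → β) (x y : V) :
    fin_cb H π x y = fin_av π (fun x' => fin_av π (fun y' => (codeg H x' y' : ℝ)) y) x := by
  have h1 : ∀ x' : V, fin_av π (fun y' => (codeg H x' y' : ℝ)) y =
      ∑ p, fin_F H π y p * fin_w H x' p := by
    intro x'
    have : (fun y' => (codeg H x' y' : ℝ)) = fun y' => ∑ p, fin_w H x' p * fin_w H y' p := by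
      funext y'
      exact (fin_codeg H x' y').symm
    rw [this, fin_av_sum]
    apply sum_congr rfl
    intro p _
    rw [fin_av_smul, mul_comm]
    rfl
  have h2 : (fun x' => fin_av π (fun y' => (codeg H x' y' : ℝ)) y) =
      fun x' => ∑ p, fin_F H π y p * fin_w H x' p := by
    funext x'
    exact h1 x'
  rw [h2, fin_av_sum]
  unfold fin_cb
  apply sum_congr rfl
  intro p _
  rw [fin_av_smul, mul_comm]
  rfl

lemma fin_dist (H : Finset (Finset V)) (π : V → β) (A : β → β → ℝ) :
    ∑ x, ∑ y, |(codeg H x y : ℝ) - fin_cb H π x y| ≤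
      2 * ∑ x, ∑ y, |(codeg H x y : ℝ) - A (π x) (π y)| := by
  have h1 : ∀ x y : V, fin_cb H π x y - A (π x) (π y) =
      fin_av π (fun x' => fin_av π (fun y' => (codeg H x' y' : ℝ) - A (π x') (π y')) y) x := by
    intro x y
    rw [fin_cb_eq]
    have h2 : ∀ x' : V, fin_av π (fun y' => (codeg H x' y' : ℝ) - A (π x') (π y')) y =
        fin_av π (fun y' => (codeg H x' y' : ℝ)) y - A (π x') (π y) := by
      intro x'
      rw [fin_av_sub]
      congr 1
      exact fin_av_of_class π (fun b => A (π x') b) y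
    simp only [h2]
    rw [fin_av_sub]
    congr 1
    exact (fin_av_of_class π (fun b => A b (π y)) x).symm
  have h2 : ∑ x, ∑ y, |fin_cb H π x y - A (π x) (π y)| ≤
      ∑ x, ∑ y, |(codeg H x y : ℝ) - A (π x) (π y)| := by
    simp only [h1]
    calc ∑ x, ∑ y, |fin_av π (fun x' => fin_av π (fun y' => (codeg H x' y' : ℝ) -
            A (π x') (π y')) y) x|
        = ∑ y, ∑ x, |fin_av π (fun x' => fin_av π (fun y' => (codeg H x' y' : ℝ) -
            A (π x') (π y')) y) x| := sum_comm
      _ ≤ ∑ y, ∑ x, |fin_av π (fun y' => (codeg H x y' : ℝ) - A (π x) (π y')) y| := by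
          apply sum_le_sum
          intro y _
          exact fin_sum_av_abs π _
      _ = ∑ x, ∑ y, |fin_av π (fun y' => (codeg H x y' : ℝ) - A (π x) (π y')) y| := sum_comm
      _ ≤ ∑ x, ∑ y, |(codeg H x y : ℝ) - A (π x) (π y)| := by
          apply sum_le_sum
          intro x _
          exact fin_sum_av_abs π _
  calc ∑ x, ∑ y, |(codeg H x y : ℝ) - fin_cb H π x y|
      ≤ ∑ x, ∑ y, (|(codeg H x y : ℝ) - A (π x) (π y)| + |fin_cb H π x y - A (π x) (π y)|) := by
        apply sum_le_sum
        intro x _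
        apply sum_le_sum
        intro y _
        have := abs_sub_le (codeg H x y : ℝ) (A (π x) (π y)) (fin_cb H π x y)
        rw [abs_sub_comm (fin_cb H π x y) (A (π x) (π y))]
        exact this
    _ = ∑ x, ∑ y, |(codeg H x y : ℝ) - A (π x) (π y)| +
          ∑ x, ∑ y, |fin_cb H π x y - A (π x) (π y)| := by
        rw [← sum_add_distrib]
        apply sum_congr rfl
        intro x _
        rw [sum_add_distrib]
    _ ≤ _ := by linarith

lemma fin_codeg_le_card (H : Finset (Finset V)) (x y : V) :
    (codeg H x y : ℝ) ≤ Fintype.card V := by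
  classical
  unfold codeg
  exact_mod_cast card_le_univ _

/-- The averaged codegree on the diagonal. -/
lemma fin_cb_diag (H : Finset (Finset V)) (π : V → β) {c C : ℝ} (hc : 0 ≤ c) (hC : 0 ≤ C)
    (hcod : ∀ x y : V, x ≠ y → (codeg H x y : ℝ) ≤ c * (dg H x + dg H y) + C) (x : V) :
    fin_cb H π x x ≤ 2 * c * fin_av π (fun y => (dg H y : ℝ)) x + C +
      Fintype.card V / (fin_Q π x).card := by
  classical
  rw [fin_cb_eq]
  set n : ℝ := (Fintype.card V : ℝ) with hn
  have hn0 : 0 ≤ n := Nat.cast_nonneg _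
  have h1 : ∀ x' y' : V, (codeg H x' y' : ℝ) ≤ c * dg H x' + (c * dg H y' + (C +
      (if y' = x' then n else 0))) := by
    intro x' y'
    by_cases h : y' = x'
    · subst h
      rw [if_pos rfl]
      have := fin_codeg_le_card H y' y'
      have h3 : 0 ≤ c * (dg H y' : ℝ) := mul_nonneg hc (Nat.cast_nonneg _)
      linarith
    · rw [if_neg h]
      have := hcod x' y' (fun h' => h h'.symm)
      linarith
  have h2 : ∀ x' : V, x' ∈ fin_Q π x → fin_av π (fun y' => (codeg H x' y' : ℝ)) x ≤
      c * dg H x' + (c * fin_av π (fun y => (dg H y : ℝ)) x + (C + n / (fin_Q π x).card)) := by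
    intro x' hx'
    refine (fin_av_mono π (h1 x') x).trans ?_
    have h3 : fin_av π (fun y' => if y' = x' then n else 0) x = n / (fin_Q π x).card := by
      unfold fin_av
      rw [sum_ite_eq' (fin_Q π x) x' (fun _ => n), if_pos hx']
    rw [fin_av_add, fin_av_const, fin_av_add, fin_av_smul, fin_av_add, fin_av_const, h3]
  have h4 : fin_av π (fun x' => fin_av π (fun y' => (codeg H x' y' : ℝ)) x) x ≤
      fin_av π (fun x' => c * dg H x' + (c * fin_av π (fun y => (dg H y : ℝ)) x +
        (C + n / (fin_Q π x).card))) x := by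
    unfold fin_av at *
    exact div_le_div_of_nonneg_right (sum_le_sum fun y hy => h2 y hy) (fin_Q_pos π x).le
  refine h4.trans (le_of_eq ?_)
  rw [fin_av_add, fin_av_smul, fin_av_const]
  ring

end Pool.Agent.Helper71.QU
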