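import Mathlib
import Pool.Agent.Helper71.QU.FINC

/-!
# The main inequality, for module FIN
-/

set_option autoImplicit false
set_option linter.unusedSectionVars false

namespace Pool.Agent.Helper71.QU

open Finset

variable {V β : Type*} [DecidableEq V] [Fintype V] [DecidableEq β] [Fintype β]

lemma fin_dg_le {r : ℕ} {H : Finset (Finset V)} (hr : 2 ≤ r) (hL : Lin r H) (x : V) :
    (dg H x : ℝ) ≤ Fintype.card V := by
  have h1 := fin_sum_w (by omega : 1 ≤ r) hL x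
  have h2 : ∑ y, fin_w H x y ≤ Fintype.card V := by
    calc ∑ y, fin_w H x y ≤ ∑ _y : V, (1 : ℝ) := sum_le_sum fun y _ => fin_w_le H x y
      _ = Fintype.card V := by simp
  have h3 : (2 : ℝ) ≤ r := by exact_mod_cast hr
  have h4 : (0 : ℝ) ≤ dg H x := Nat.cast_nonneg _
  nlinarith

lemma fin_sum_F {r : ℕ} {H : Finset (Finset V)} (hr : 2 ≤ r) (hL : Lin r H) (π : V → β) (x : V) :
    ∑ p, fin_F H π x p = ((r : ℝ) - 1) * fin_av π (fun y => (dg H y : ℝ)) x := by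
  unfold fin_F
  rw [← fin_av_sum, ← fin_av_smul]
  congr 1
  funext y
  exact fin_sum_w (by omega) hL y

/-- The sum of squares over lines and points. -/
lemma fin_T1 {r : ℕ} {H : Finset (Finset V)} (hL : Lin r H) (π : V → β) :
    ∑ A ∈ H, ∑ p, (∑ x ∈ A, fin_F H π x p) ^ 2 =
      ∑ x, ∑ y, fin_w H x y * fin_cb H π x y + ∑ x, (dg H x : ℝ) * fin_cb H π x x := by
  rw [← fin_sum_pairs hL (fun x y => fin_cb H π x y), ← fin_sum_inc H (fun x => fin_cb H π x x),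
    ← sum_add_distrib]
  apply sum_congr rfl
  intro A _
  simp only [fin_sq_line]
  rw [sum_add_distrib]
  congr 1
  · rw [sum_comm]
    rfl
  · rw [sum_comm]
    apply sum_congr rfl
    intro x _
    unfold fin_cb
    apply sum_congr rfl
    intro p _
    ring

lemma fin_T2 {r : ℕ} {H : Finset (Finset V)} (hr : 2 ≤ r) (hL : Lin r H) (π : V → β) :
    ∑ A ∈ H, ∑ p, ∑ x ∈ A, fin_F H π x p =
      ((r : ℝ) - 1) * ∑ x, fin_av π (fun y => (dg H y : ℝ)) x ^ 2 := by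
  have h1 : ∀ A ∈ H, ∑ p, ∑ x ∈ A, fin_F H π x p = ∑ x ∈ A, ∑ p, fin_F H π x p := by
    intro A _
    rw [sum_comm]
  rw [sum_congr rfl h1, fin_sum_inc H (fun x => ∑ p, fin_F H π x p), fin_sum_av_sq, mul_sum]
  apply sum_congr rfl
  intro x _
  rw [fin_sum_F hr hL]
  ring

lemma fin_T3 {r : ℕ} {H : Finset (Finset V)} (hr : 2 ≤ r) (hL : Lin r H) (π : V → β) :
    (((r : ℝ) - 1) * ∑ x, fin_av π (fun y => (dg H y : ℝ)) x ^ 2) ^ 2 ≤
      (H.card * Fintype.card V : ℝ) *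
        (∑ x, ∑ y, fin_w H x y * fin_cb H π x y + ∑ x, (dg H x : ℝ) * fin_cb H π x x) := by
  rw [← fin_T1 hL, ← fin_T2 hr hL]
  rw [← sum_product', ← sum_product']
  have h := sq_sum_le_card_mul_sum_sq (s := H ×ˢ (univ : Finset V))
    (f := fun q => ∑ x ∈ q.1, fin_F H π x q.2)
  rw [card_product, card_univ] at h
  push_cast at h
  exact h

lemma fin_T5 {r : ℕ} {H : Finset (Finset V)} (hr : 2 ≤ r) (hL : Lin r H) (π : V → β) {c C : ℝ}
    (hc : 0 ≤ c) (hC : 0 ≤ C)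
    (hcod : ∀ x y : V, x ≠ y → (codeg H x y : ℝ) ≤ c * (dg H x + dg H y) + C) :
    ∑ x, (dg H x : ℝ) * fin_cb H π x x ≤
      2 * c * ∑ x, fin_av π (fun y => (dg H y : ℝ)) x ^ 2 +
        (C + Fintype.card β) * (Fintype.card V : ℝ) ^ 2 := by
  set n : ℝ := (Fintype.card V : ℝ) with hn
  have hn0 : 0 ≤ n := Nat.cast_nonneg _
  have h1 : ∀ x : V, (dg H x : ℝ) * fin_cb H π x x ≤
      2 * c * ((dg H x : ℝ) * fin_av π (fun y => (dg H y : ℝ)) x) + C * n +
        n ^ 2 * (1 / ((fin_Q π x).card : ℝ)) := by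
    intro x
    have h2 := fin_cb_diag H π hc hC hcod x
    have h3 : (0 : ℝ) ≤ dg H x := Nat.cast_nonneg _
    have h4 := fin_dg_le hr hL x
    have h5 : (0 : ℝ) ≤ 1 / ((fin_Q π x).card : ℝ) := by positivity
    have h6 : (dg H x : ℝ) * fin_cb H π x x ≤ (dg H x : ℝ) *
        (2 * c * fin_av π (fun y => (dg H y : ℝ)) x + C + n / (fin_Q π x).card) :=
      mul_le_mul_of_nonneg_left h2 h3
    have h7 : (dg H x : ℝ) * C ≤ n * C := mul_le_mul_of_nonneg_right h4 hC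
    have h8 : (dg H x : ℝ) * (n / (fin_Q π x).card) ≤ n * (n * (1 / ((fin_Q π x).card : ℝ))) := by
      rw [mul_one_div]
      exact mul_le_mul_of_nonneg_right h4 (by positivity)
    calc (dg H x : ℝ) * fin_cb H π x x ≤ _ := h6
      _ = 2 * c * ((dg H x : ℝ) * fin_av π (fun y => (dg H y : ℝ)) x) + (dg H x : ℝ) * C +
          (dg H x : ℝ) * (n / (fin_Q π x).card) := by ring
      _ ≤ _ := by nlinarith
  calc ∑ x, (dg H x : ℝ) * fin_cb H π x x ≤ ∑ x, (2 * c * ((dg H x : ℝ) *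
        fin_av π (fun y => (dg H y : ℝ)) x) + C * n + n ^ 2 * (1 / ((fin_Q π x).card : ℝ))) :=
        sum_le_sum fun x _ => h1 x
    _ = 2 * c * ∑ x, fin_av π (fun y => (dg H y : ℝ)) x ^ 2 + n * (C * n) +
        n ^ 2 * ∑ x : V, (1 / ((fin_Q π x).card : ℝ)) := by
        have e1 : ∑ _x : V, C * n = n * (C * n) := by
          rw [sum_const, nsmul_eq_mul, card_univ]
        rw [sum_add_distrib, sum_add_distrib, e1, fin_sum_av_sq, ← mul_sum, ← mul_sum]
    _ ≤ _ := by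
        have h9 := fin_sum_inv π
        have h10 : n ^ 2 * ∑ x : V, (1 / ((fin_Q π x).card : ℝ)) ≤ n ^ 2 * Fintype.card β :=
          mul_le_mul_of_nonneg_left h9 (by positivity)
        nlinarith

lemma fin_T6 {r : ℕ} {H : Finset (Finset V)} (hr : 3 ≤ r) (hL : Lin r H) (π : V → β)
    (a : β → ℝ) {s : ℝ}
    (ha : ∑ x, |((r : ℝ) - 1) * dg H x - a (π x)| ≤ (Fintype.card V : ℝ) ^ 2 * s) :
    ∑ x, (dg H x : ℝ) ^ 2 ≤ ∑ x, fin_av π (fun y => (dg H y : ℝ)) x ^ 2 +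
      (Fintype.card V : ℝ) ^ 3 * s := by
  set n : ℝ := (Fintype.card V : ℝ) with hn
  have hn0 : 0 ≤ n := Nat.cast_nonneg _
  set g : V → ℝ := fun y => (dg H y : ℝ) with hg
  have hr3 : (3 : ℝ) ≤ r := by exact_mod_cast hr
  have h1 : ∑ x, |g x - fin_av π g x| ≤ n ^ 2 * s := by
    have h2 : ∀ x, 2 * |g x - fin_av π g x| ≤ |((r : ℝ) - 1) * g x - a (π x)| +
        |fin_av π (fun y => ((r : ℝ) - 1) * g y - a (π y)) x| := by
      intro x
      rw [fin_av_sub, fin_av_smul, fin_av_of_class π a x]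
      have h3 : ((r : ℝ) - 1) * (g x - fin_av π g x) = (((r : ℝ) - 1) * g x - a (π x)) -
          (((r : ℝ) - 1) * fin_av π g x - a (π x)) := by ring
      have h4 := abs_sub (((r : ℝ) - 1) * g x - a (π x)) (((r : ℝ) - 1) * fin_av π g x - a (π x))
      rw [← h3, abs_mul, abs_of_nonneg (by linarith : (0 : ℝ) ≤ (r : ℝ) - 1)] at h4
      have h5 : 0 ≤ |g x - fin_av π g x| := abs_nonneg _
      nlinarith
    have h6 : 2 * ∑ x, |g x - fin_av π g x| ≤ ∑ x, |((r : ℝ) - 1) * g x - a (π x)| +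
        ∑ x, |fin_av π (fun y => ((r : ℝ) - 1) * g y - a (π y)) x| := by
      rw [mul_sum, ← sum_add_distrib]
      exact sum_le_sum fun x _ => h2 x
    have h7 := fin_sum_av_abs π (fun y => ((r : ℝ) - 1) * g y - a (π y))
    have h8 : ∑ x, |((r : ℝ) - 1) * g x - a (π x)| ≤ n ^ 2 * s := ha
    linarith
  have h2 : ∑ x, g x ^ 2 - ∑ x, fin_av π g x ^ 2 ≤ n * ∑ x, |g x - fin_av π g x| := by
    rw [fin_sum_av_sq, ← sum_sub_distrib, mul_sum]
    apply sum_le_sum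
    intro x _
    have h3 : (0 : ℝ) ≤ g x := Nat.cast_nonneg _
    have h4 : g x ≤ n := fin_dg_le (by omega) hL x
    calc g x ^ 2 - g x * fin_av π g x = g x * (g x - fin_av π g x) := by ring
      _ ≤ g x * |g x - fin_av π g x| := mul_le_mul_of_nonneg_left (le_abs_self _) h3
      _ ≤ n * |g x - fin_av π g x| := mul_le_mul_of_nonneg_right h4 (abs_nonneg _)
  have h3 : n * ∑ x, |g x - fin_av π g x| ≤ n * (n ^ 2 * s) := mul_le_mul_of_nonneg_left h1 hn0
  have h4 : ∑ x, (dg H x : ℝ) ^ 2 = ∑ x, g x ^ 2 := rfl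
  rw [h4]
  nlinarith

/-- The main inequality. -/
lemma fin_main {r : ℕ} {H : Finset (Finset V)} (hr : 3 ≤ r) (hL : Lin r H) (π : V → β)
    {c α C s : ℝ} (hc : 0 ≤ c) (hα : 0 ≤ α) (hC : 0 ≤ C) 
    (hX : (X3 H : ℝ) ≤ α * ∑ x, (dg H x : ℝ) ^ 2 + C * (Fintype.card V : ℝ) ^ 2)
    (hcod : ∀ x y : V, x ≠ y → (codeg H x y : ℝ) ≤ c * (dg H x + dg H y) + C)
    (A : β → β → ℝ) (a : β → ℝ)
    (hA : ∑ x, ∑ y, |(codeg H x y : ℝ) - A (π x) (π y)| ≤ (Fintype.card V : ℝ) ^ 3 * s)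
    (ha : ∑ x, |((r : ℝ) - 1) * dg H x - a (π x)| ≤ (Fintype.card V : ℝ) ^ 2 * s) :
    (((r : ℝ) - 1) * ∑ x, fin_av π (fun y => (dg H y : ℝ)) x ^ 2) ^ 2 ≤
      (H.card * Fintype.card V : ℝ) *
        ((α + 2 * c) * ∑ x, fin_av π (fun y => (dg H y : ℝ)) x ^ 2 +
          (α + 2) * ((Fintype.card V : ℝ) ^ 3 * s) +
          (2 * C + Fintype.card β) * (Fintype.card V : ℝ) ^ 2) := by
  have h3 := fin_T3 (by omega : 2 ≤ r) hL π
  have h5 := fin_T5 (by omega : 2 ≤ r) hL π hc hC hcod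
  have h6 := fin_T6 hr hL π a ha
  have h4 : ∑ x, ∑ y, fin_w H x y * fin_cb H π x y ≤ X3 H + 2 * ((Fintype.card V : ℝ) ^ 3 * s) := by
    have h7 := (fin_dist H π A).trans (mul_le_mul_of_nonneg_left hA (by norm_num : (0:ℝ) ≤ 2))
    have h8 : ∑ x, ∑ y, fin_w H x y * fin_cb H π x y ≤
        ∑ x, ∑ y, (fin_w H x y * codeg H x y + |(codeg H x y : ℝ) - fin_cb H π x y|) := by
      apply sum_le_sum
      intro x _
      apply sum_le_sum
      intro y _
      have h9 : fin_w H x y * (fin_cb H π x y - codeg H x y) ≤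
          |(codeg H x y : ℝ) - fin_cb H π x y| := by
        rw [abs_sub_comm]
        calc fin_w H x y * (fin_cb H π x y - codeg H x y) ≤
            fin_w H x y * |fin_cb H π x y - codeg H x y| :=
              mul_le_mul_of_nonneg_left (le_abs_self _) (fin_w_nonneg H x y)
          _ ≤ 1 * |fin_cb H π x y - codeg H x y| :=
              mul_le_mul_of_nonneg_right (fin_w_le H x y) (abs_nonneg _)
          _ = _ := one_mul _
      linarith [mul_sub (fin_w H x y) (fin_cb H π x y) (codeg H x y : ℝ)]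
    have h10 : ∑ x, ∑ y, (fin_w H x y * codeg H x y + |(codeg H x y : ℝ) - fin_cb H π x y|) =
        (X3 H : ℝ) + ∑ x, ∑ y, |(codeg H x y : ℝ) - fin_cb H π x y| := by
      rw [fin_X3, ← sum_add_distrib]
      apply sum_congr rfl
      intro x _
      rw [sum_add_distrib]
    linarith
  refine h3.trans (mul_le_mul_of_nonneg_left ?_ (by positivity))
  have h11 : α * ∑ x, (dg H x : ℝ) ^ 2 ≤ α * (∑ x, fin_av π (fun y => (dg H y : ℝ)) x ^ 2 +
      (Fintype.card V : ℝ) ^ 3 * s) := mul_le_mul_of_nonneg_left h6 hα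
  linarith

end Pool.Agent.Helper71.QU
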