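import Mathlib

set_option autoImplicit false

namespace Pool.Agent.Helper71.QU

open Finset

variable {V : Type*} [DecidableEq V]

/-- one greedy step: some index does not increase the inner product -/
lemma SAMP_exists_le {V : Type*} [Fintype V] [Nonempty V] (g : V → ℝ) (h : ∑ p, g p = 0) :
    ∃ p, g p ≤ 0 := by
  by_contra hcon
  push Not at hcon
  have : 0 < ∑ p, g p := Finset.sum_pos (fun p _ => hcon p) Finset.univ_nonempty
  linarith

/-- greedy choice in a weighted sum of squares -/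
lemma SAMP_greedy {V ι : Type*} [Fintype V] [Nonempty V] [Fintype ι] (c : ι → ℝ)
    (u : V → ι → ℝ) (hu : ∀ i, ∑ p, u p i = 0) (M : ℝ) (hM : ∀ p, ∑ i, c i * u p i ^ 2 ≤ M)
    (k : ℕ) : ∃ P : Fin k → V, ∑ i, c i * (∑ j, u (P j) i) ^ 2 ≤ k * M := by
  induction k with
  | zero => exact ⟨Fin.elim0, by simp⟩
  | succ k ih =>
    obtain ⟨P, hP⟩ := ih
    obtain ⟨p, hp⟩ := SAMP_exists_le (fun p => ∑ i, c i * ((∑ j, u (P j) i) * u p i)) (by
      rw [Finset.sum_comm]
      apply Finset.sum_eq_zero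
      intro i _
      rw [← Finset.mul_sum, ← Finset.mul_sum, hu i]
      ring)
    refine ⟨Fin.snoc P p, ?_⟩
    have h1 : ∀ i, ∑ j : Fin (k + 1), u ((Fin.snoc P p : Fin (k + 1) → V) j) i =
        (∑ j, u (P j) i) + u p i := by
      intro i
      rw [Fin.sum_univ_castSucc]
      simp
    have h2 : ∑ i, c i * (∑ j : Fin (k + 1), u ((Fin.snoc P p : Fin (k + 1) → V) j) i) ^ 2 =
        ∑ i, c i * (∑ j, u (P j) i) ^ 2 + 2 * ∑ i, c i * ((∑ j, u (P j) i) * u p i) +
          ∑ i, c i * u p i ^ 2 := by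
      rw [Finset.mul_sum, ← Finset.sum_add_distrib, ← Finset.sum_add_distrib]
      apply Finset.sum_congr rfl
      intro i _
      rw [h1 i]
      ring
    rw [h2]
    have h3 := hM p
    push_cast
    linarith

lemma SAMP_sqrt {k : ℕ} (hk : 0 < k) : Real.sqrt (2 * k) = k * Real.sqrt (2 / k) := by
  have hk' : (0 : ℝ) < k := by exact_mod_cast hk
  have h1 : (2 * k : ℝ) = (k : ℝ) ^ 2 * (2 / k) := by field_simp
  rw [h1, Real.sqrt_mul (by positivity), Real.sqrt_sq hk'.le]

/-- Cauchy-Schwarz -/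
lemma SAMP_cs {ι : Type*} [Fintype ι] (E : ι → ℝ) {m S : ℝ} (hm : (Fintype.card ι : ℝ) = m)
    (hS : ∑ i, E i ^ 2 ≤ S) : ∑ i, |E i| ≤ Real.sqrt (m * S) := by
  apply Real.le_sqrt_of_sq_le
  have h1 := sq_sum_le_card_mul_sum_sq (s := (Finset.univ : Finset ι)) (f := fun i => |E i|)
  simp only [sq_abs, Finset.card_univ] at h1
  refine h1.trans ?_
  rw [hm]
  apply mul_le_mul_of_nonneg_left hS
  rw [← hm]
  positivity

/-- Weak regularity by greedy sampling. -/
lemma sampling {V : Type*} [Fintype V] (w : V → V → ℝ) (h01 : ∀ x y, w x y = 0 ∨ w x y = 1)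
    (k : ℕ) (hk : 0 < k) :
    ∃ (π : V → Fin k → Bool) (A : (Fin k → Bool) → (Fin k → Bool) → ℝ)
      (a : (Fin k → Bool) → ℝ),
      ∑ x, ∑ y, |∑ p, w x p * w y p - A (π x) (π y)| ≤
        (Fintype.card V : ℝ) ^ 3 * Real.sqrt (2 / k) ∧
      ∑ x, |∑ p, w x p - a (π x)| ≤ (Fintype.card V : ℝ) ^ 2 * Real.sqrt (2 / k) := by
  classical
  rcases isEmpty_or_nonempty V with hV | hV
  · exact ⟨fun _ _ => false, fun _ _ => 0, fun _ => 0, by simp, by simp⟩
  set n : ℝ := (Fintype.card V : ℝ) with hn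
  have hn0 : 0 < n := by
    rw [hn]; exact_mod_cast Fintype.card_pos
  have hk' : (0 : ℝ) < k := by exact_mod_cast hk
  have hw0 : ∀ x y, 0 ≤ w x y := fun x y => by rcases h01 x y with h | h <;> rw [h] <;> norm_num
  have hw1 : ∀ x y, w x y ≤ 1 := fun x y => by rcases h01 x y with h | h <;> rw [h] <;> norm_num
  have hsum : ∀ g : V → ℝ, (∀ p, 0 ≤ g p) → (∀ p, g p ≤ 1) →
      0 ≤ (∑ p, g p) / n ∧ (∑ p, g p) / n ≤ 1 := by
    intro g hg0 hg1
    constructor
    · exact div_nonneg (Finset.sum_nonneg fun p _ => hg0 p) hn0.le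
    · rw [div_le_one hn0, hn]
      calc ∑ p, g p ≤ ∑ _p : V, (1 : ℝ) := Finset.sum_le_sum fun p _ => hg1 p
        _ = _ := by simp
  -- the vectors
  let u : V → (V × V) ⊕ V → ℝ := fun p => Sum.elim
    (fun q => w q.1 p * w q.2 p - (∑ p', w q.1 p' * w q.2 p') / n)
    (fun x => w x p - (∑ p', w x p') / n)
  let c : (V × V) ⊕ V → ℝ := Sum.elim (fun _ => 1) (fun _ => n)
  have hu : ∀ i, ∑ p, u p i = 0 := by
    rintro (q | x)
    · simp only [u, Sum.elim_inl, Finset.sum_sub_distrib, Finset.sum_const, Finset.card_univ,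
        nsmul_eq_mul, ← hn]
      field_simp
      ring
    · simp only [u, Sum.elim_inr, Finset.sum_sub_distrib, Finset.sum_const, Finset.card_univ,
        nsmul_eq_mul, ← hn]
      field_simp
      ring
  have habs : ∀ a b : ℝ, 0 ≤ a → a ≤ 1 → 0 ≤ b → b ≤ 1 → (a - b) ^ 2 ≤ 1 := by
    intro a b h1 h2 h3 h4
    nlinarith
  have hM : ∀ p, ∑ i, c i * u p i ^ 2 ≤ 2 * n ^ 2 := by
    intro p
    rw [Fintype.sum_sum_type]
    have h1 : ∑ q : V × V, c (Sum.inl q) * u p (Sum.inl q) ^ 2 ≤ ∑ _q : V × V, (1 : ℝ) := by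
      apply Finset.sum_le_sum
      intro q _
      simp only [c, u, Sum.elim_inl, one_mul]
      have := hsum (fun p' => w q.1 p' * w q.2 p') (fun p' => mul_nonneg (hw0 _ _) (hw0 _ _))
        (fun p' => mul_le_one₀ (hw1 _ _) (hw0 _ _) (hw1 _ _))
      exact habs _ _ (mul_nonneg (hw0 _ _) (hw0 _ _)) (mul_le_one₀ (hw1 _ _) (hw0 _ _) (hw1 _ _))
        this.1 this.2
    have h2 : ∑ x : V, c (Sum.inr x) * u p (Sum.inr x) ^ 2 ≤ ∑ _x : V, n := by
      apply Finset.sum_le_sum
      intro x _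
      simp only [c, u, Sum.elim_inr]
      have := hsum (fun p' => w x p') (fun p' => hw0 _ _) (fun p' => hw1 _ _)
      have h3 := habs _ _ (hw0 x p) (hw1 x p) this.1 this.2
      nlinarith
    have h3 : ∑ _q : V × V, (1 : ℝ) = n ^ 2 := by
      simp [Fintype.card_prod, hn]; ring
    have h4 : ∑ _x : V, n = n ^ 2 := by
      rw [Finset.sum_const, Finset.card_univ, nsmul_eq_mul, ← hn]; ring
    rw [h3] at h1
    rw [h4] at h2
    linarith
  obtain ⟨P, hP⟩ := SAMP_greedy c u hu (2 * n ^ 2) hM k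
  rw [Fintype.sum_sum_type] at hP
  simp only [c, u, Sum.elim_inl, Sum.elim_inr, one_mul] at hP
  set E : V × V → ℝ := fun q => ∑ j, (w q.1 (P j) * w q.2 (P j) -
    (∑ p', w q.1 p' * w q.2 p') / n) with hE
  set e : V → ℝ := fun x => ∑ j, (w x (P j) - (∑ p', w x p') / n) with he
  have hP1 : ∑ q, E q ^ 2 ≤ k * (2 * n ^ 2) := by
    have h1 : 0 ≤ ∑ x, n * e x ^ 2 := Finset.sum_nonneg fun x _ => by positivity
    linarith
  have hP2 : ∑ x, e x ^ 2 ≤ k * (2 * n) := by
    have h1 : 0 ≤ ∑ q, E q ^ 2 := Finset.sum_nonneg fun x _ => by positivity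
    have h2 : ∑ x, n * e x ^ 2 ≤ k * (2 * n ^ 2) := by linarith
    rw [← Finset.mul_sum] at h2
    have h3 : n * ∑ x, e x ^ 2 ≤ n * (k * (2 * n)) := by
      calc n * ∑ x, e x ^ 2 ≤ k * (2 * n ^ 2) := h2
        _ = n * (k * (2 * n)) := by ring
    exact le_of_mul_le_mul_left h3 hn0
  have hC1 : ∑ q, |E q| ≤ n ^ 2 * (k * Real.sqrt (2 / k)) := by
    have h1 := SAMP_cs E (m := n ^ 2) (by rw [Fintype.card_prod]; push_cast; rw [← hn]; ring) hP1
    have h2 : n ^ 2 * (k * (2 * n ^ 2)) = (n ^ 2) ^ 2 * (2 * k) := by ring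
    rw [h2, Real.sqrt_mul (by positivity), Real.sqrt_sq (by positivity), SAMP_sqrt hk] at h1
    exact h1
  have hC2 : ∑ x, |e x| ≤ n * (k * Real.sqrt (2 / k)) := by
    have h1 := SAMP_cs e (m := n) hn.symm hP2
    have h2 : n * (k * (2 * n)) = n ^ 2 * (2 * k) := by ring
    rw [h2, Real.sqrt_mul (by positivity), Real.sqrt_sq (by positivity), SAMP_sqrt hk] at h1
    exact h1
  refine ⟨fun x j => decide (w x (P j) = 1),
    fun s t => n / k * ∑ j, (if s j = true ∧ t j = true then 1 else 0),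
    fun s => n / k * ∑ j, (if s j = true then 1 else 0), ?_, ?_⟩
  · have h1 : ∀ x y, ∑ p, w x p * w y p - n / k * ∑ j : Fin k,
        (if (decide (w x (P j) = 1)) = true ∧ (decide (w y (P j) = 1)) = true then (1 : ℝ) else 0) =
        -(n / k * E (x, y)) := by
      intro x y
      have h2 : ∀ j, (if (decide (w x (P j) = 1)) = true ∧ (decide (w y (P j) = 1)) = true
          then (1 : ℝ) else 0) = w x (P j) * w y (P j) := by
        intro j
        rcases h01 x (P j) with h | h <;> rcases h01 y (P j) with h' | h' <;> simp [h, h']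
      simp only [h2]
      rw [hE]
      simp only [Finset.sum_sub_distrib, Finset.sum_const, Finset.card_univ, Fintype.card_fin,
        nsmul_eq_mul]
      field_simp
      ring
    calc ∑ x, ∑ y, |_| = ∑ x, ∑ y, n / k * |E (x, y)| := by
          apply Finset.sum_congr rfl; intro x _
          apply Finset.sum_congr rfl; intro y _
          rw [h1 x y, abs_neg, abs_mul, abs_of_pos (div_pos hn0 hk')]
      _ = n / k * ∑ q, |E q| := by
          rw [Finset.mul_sum, Fintype.sum_prod_type]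
      _ ≤ n / k * (n ^ 2 * (k * Real.sqrt (2 / k))) :=
          mul_le_mul_of_nonneg_left hC1 (div_pos hn0 hk').le
      _ = n ^ 3 * Real.sqrt (2 / k) := by
          field_simp
  · have h1 : ∀ x, ∑ p, w x p - n / k * ∑ j : Fin k,
        (if (decide (w x (P j) = 1)) = true then (1 : ℝ) else 0) = -(n / k * e x) := by
      intro x
      have h2 : ∀ j, (if (decide (w x (P j) = 1)) = true then (1 : ℝ) else 0) = w x (P j) := by
        intro j
        rcases h01 x (P j) with h | h <;> simp [h]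
      simp only [h2]
      rw [he]
      simp only [Finset.sum_sub_distrib, Finset.sum_const, Finset.card_univ, Fintype.card_fin,
        nsmul_eq_mul]
      field_simp
      ring
    calc ∑ x, |_| = ∑ x, n / k * |e x| := by
          apply Finset.sum_congr rfl; intro x _
          rw [h1 x, abs_neg, abs_mul, abs_of_pos (div_pos hn0 hk')]
      _ = n / k * ∑ x, |e x| := by rw [Finset.mul_sum]
      _ ≤ n / k * (n * (k * Real.sqrt (2 / k))) :=
          mul_le_mul_of_nonneg_left hC2 (div_pos hn0 hk').le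
      _ = n ^ 2 * Real.sqrt (2 / k) := by
          field_simp

end Pool.Agent.Helper71.QU
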