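import Mathlib
import Pool.Agent.Helper71.QU.Defs
import Pool.Agent.Helper71.QU.SAMP
import Pool.Agent.Helper71.QU.FIND

/-!
# The analytic conclusion
-/

set_option autoImplicit false

namespace Pool.Agent.Helper71.QU

open Finset

/-- The final elementary inequality. -/
lemma fin_num {r n h Y K ε : ℝ} (hr : 3 ≤ r) (hn : 0 < n) (hY : (r * h) ^ 2 ≤ n * Y)
    (hK : 0 ≤ K) (hε : 0 < ε) (h1 : ((r - 1) * Y) ^ 2 ≤ h * n * (K * Y + ε ^ 3 * n ^ 3)) :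
    h ≤ (K / (r ^ 2 * (r - 1) ^ 2) + ε) * n ^ 2 := by
  by_contra hcon
  push Not at hcon
  have hr1 : (0 : ℝ) < r - 1 := by linarith
  set R : ℝ := (r - 1) ^ 2 with hR
  have hRpos : 0 < R := by positivity
  have hR1 : 1 ≤ R := by rw [hR]; nlinarith
  have hr2 : (1 : ℝ) ≤ r ^ 2 := by nlinarith
  have hD : 0 < r ^ 2 * R := by positivity
  have hκ : 0 ≤ K / (r ^ 2 * R) := by positivity
  have hεn : ε * n ^ 2 < h := by nlinarith [sq_nonneg n, mul_nonneg hκ (sq_nonneg n)]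
  have hhpos : 0 < h := lt_of_le_of_lt (by positivity) hεn
  have A1 : R * (r * h) ^ 2 ≤ n * (R * Y) := by nlinarith
  have A2 : n ^ 2 * (K + ε * (r ^ 2 * R)) < h * (r ^ 2 * R) := by
    have := mul_lt_mul_of_pos_right hcon hD
    have e1 : (K / (r ^ 2 * R) + ε) * n ^ 2 * (r ^ 2 * R) =
        n ^ 2 * (K + ε * (r ^ 2 * R)) := by
      field_simp
    rw [e1] at this
    exact this
  have A3 : n * (h * n * (ε * (r ^ 2 * R))) < n * (R * Y - h * n * K) := by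
    have := mul_lt_mul_of_pos_left A2 hhpos
    nlinarith
  have A4 : h * n * (ε * (r ^ 2 * R)) < R * Y - h * n * K := lt_of_mul_lt_mul_left A3 hn.le
  have A5 : 0 < Y := by
    have : 0 < n * Y := lt_of_lt_of_le (by positivity) hY
    exact (mul_pos_iff_of_pos_left hn).1 this
  have A6 : Y * (h * n * (ε * (r ^ 2 * R))) < Y * (R * Y - h * n * K) :=
    mul_lt_mul_of_pos_left A4 A5
  have A8 : Y * (R * Y - h * n * K) ≤ h * ε * (ε * n ^ 2) ^ 2 := by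
    have e1 : ((r - 1) * Y) ^ 2 = R * Y * Y := by rw [hR]; ring
    rw [e1] at h1
    nlinarith
  have A9 : (ε * n ^ 2) ^ 2 ≤ h ^ 2 := by
    apply pow_le_pow_left₀ (by positivity) hεn.le
  have A10 : h * ε * (ε * n ^ 2) ^ 2 ≤ h * ε * h ^ 2 :=
    mul_le_mul_of_nonneg_left A9 (by positivity)
  have A7 : (r * h) ^ 2 * (h * (ε * (r ^ 2 * R))) ≤ n * Y * (h * (ε * (r ^ 2 * R))) :=
    mul_le_mul_of_nonneg_right hY (by positivity)
  have A11 : h * ε * h ^ 2 ≤ (r * h) ^ 2 * (h * (ε * (r ^ 2 * R))) := by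
    have e1 : (r * h) ^ 2 * (h * (ε * (r ^ 2 * R))) = (h * ε * h ^ 2) * (r ^ 2 * (r ^ 2 * R)) := by
      ring
    rw [e1]
    have h3 : 1 ≤ r ^ 2 * (r ^ 2 * R) := by
      have : 1 ≤ r ^ 2 * R := by nlinarith
      nlinarith
    exact le_mul_of_one_le_right (by positivity) h3
  have e2 : Y * (h * n * (ε * (r ^ 2 * R))) = n * Y * (h * (ε * (r ^ 2 * R))) := by ring
  rw [e2] at A6
  linarith

/-- The analytic conclusion. -/
theorem fin_bound (r e : ℕ) (hr : 3 ≤ r) (he : 3 ≤ e) (C : ℝ) (ε : ℝ) (hε : 0 < ε) :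
    ∃ n₀ : ℕ, ∀ n ≥ n₀, ∀ H : Finset (Finset (Fin n)), Lin r H →
      (((e : ℝ) - 1) * X3 H ≤ 3 * ((e : ℝ) - 3) * ∑ x, (dg H x : ℝ) ^ 2 + C * (n : ℝ) ^ 2) →
      (∀ x y : Fin n, x ≠ y →
        ((e : ℝ) - 1) * codeg H x y ≤ ((e : ℝ) - 2) * (dg H x + dg H y) + C) →
      (H.card : ℝ) ≤
        ((5 * (e : ℝ) - 13) / (((e : ℝ) - 1) * (r : ℝ) ^ 2 * ((r : ℝ) - 1) ^ 2) + ε) *
          (n : ℝ) ^ 2 := by
  have he3 : (3 : ℝ) ≤ e := by exact_mod_cast he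
  have hr3 : (3 : ℝ) ≤ r := by exact_mod_cast hr
  have he1 : (0 : ℝ) < (e : ℝ) - 1 := by linarith
  set k : ℕ := ⌈200 / ε ^ 6⌉₊ + 1 with hk
  have hkpos : 0 < k := by omega
  have hkR : 200 / ε ^ 6 ≤ (k : ℝ) := by
    rw [hk]; push_cast
    linarith [Nat.le_ceil (200 / ε ^ 6)]
  have hkR0 : (0 : ℝ) < k := by exact_mod_cast hkpos
  set s : ℝ := Real.sqrt (2 / k) with hs
  have hs0 : 0 ≤ s := Real.sqrt_nonneg _
  have hsle : s ≤ ε ^ 3 / 10 := by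
    rw [hs]
    apply Real.sqrt_le_iff.2
    refine ⟨by positivity, ?_⟩
    rw [div_le_iff₀ hkR0]
    rw [div_le_iff₀ (by positivity)] at hkR
    have e1 : (ε ^ 3 / 10) ^ 2 * k = (k * ε ^ 6) / 100 := by ring
    rw [e1]
    linarith
  set C' : ℝ := |C| with hC'
  have hC'0 : 0 ≤ C' := abs_nonneg _
  set α : ℝ := 3 * ((e : ℝ) - 3) / ((e : ℝ) - 1) with hα
  set c : ℝ := ((e : ℝ) - 2) / ((e : ℝ) - 1) with hc
  have hα0 : 0 ≤ α := div_nonneg (by linarith) he1.le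
  have hα3 : α ≤ 3 := by
    rw [hα, div_le_iff₀ he1]; linarith
  have hc0 : 0 ≤ c := div_nonneg (by linarith) he1.le
  set M : ℝ := 2 * C' + (2 : ℝ) ^ k with hM
  have hM0 : 0 < M := by positivity
  refine ⟨⌈M / (ε ^ 3 / 2)⌉₊ + 1, ?_⟩
  intro n hn H hL hX hcod
  have hn0 : 0 < n := by omega
  have hnR : (0 : ℝ) < n := by exact_mod_cast hn0
  have hMn : M ≤ ε ^ 3 / 2 * n := by
    have h1 : M / (ε ^ 3 / 2) ≤ (n : ℝ) := by
      have h2 : ((⌈M / (ε ^ 3 / 2)⌉₊ + 1 : ℕ) : ℝ) ≤ n := by exact_mod_cast hn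
      push_cast at h2
      linarith [Nat.le_ceil (M / (ε ^ 3 / 2))]
    rw [div_le_iff₀ (by positivity)] at h1
    linarith
  obtain ⟨π, A, a, hA, ha⟩ := sampling (fin_w H) (fin_w_01 H) k hkpos
  rw [Fintype.card_fin] at hA ha
  have hA' : ∑ x, ∑ y, |(codeg H x y : ℝ) - A (π x) (π y)| ≤ (Fintype.card (Fin n) : ℝ) ^ 3 * s := by
    rw [Fintype.card_fin]
    refine le_trans (le_of_eq ?_) hA
    apply sum_congr rfl
    intro x _
    apply sum_congr rfl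
    intro y _
    rw [fin_codeg]
  have ha' : ∑ x, |((r : ℝ) - 1) * dg H x - a (π x)| ≤ (Fintype.card (Fin n) : ℝ) ^ 2 * s := by
    rw [Fintype.card_fin]
    refine le_trans (le_of_eq ?_) ha
    apply sum_congr rfl
    intro x _
    rw [fin_sum_w (by omega) hL]
  have hX' : (X3 H : ℝ) ≤ α * ∑ x, (dg H x : ℝ) ^ 2 + C' * (Fintype.card (Fin n) : ℝ) ^ 2 := by
    rw [Fintype.card_fin]
    have h1 : (X3 H : ℝ) ≤ (3 * ((e : ℝ) - 3) * ∑ x, (dg H x : ℝ) ^ 2 + C' * (n : ℝ) ^ 2) /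
        ((e : ℝ) - 1) := by
      rw [le_div_iff₀ he1]
      have h2 : C * (n : ℝ) ^ 2 ≤ C' * (n : ℝ) ^ 2 :=
        mul_le_mul_of_nonneg_right (le_abs_self C) (by positivity)
      linarith
    refine h1.trans ?_
    rw [add_div, hα]
    have h3 : C' * (n : ℝ) ^ 2 / ((e : ℝ) - 1) ≤ C' * (n : ℝ) ^ 2 :=
      div_le_self (by positivity) (by linarith)
    have h4 : 3 * ((e : ℝ) - 3) * ∑ x, (dg H x : ℝ) ^ 2 / ((e : ℝ) - 1) =
      3 * ((e : ℝ) - 3) / ((e : ℝ) - 1) * ∑ x, (dg H x : ℝ) ^ 2 := by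
      rw [← Finset.sum_div]; ring
    have h5 : (3 * ((e : ℝ) - 3) * ∑ x, (dg H x : ℝ) ^ 2) / ((e : ℝ) - 1) =
      3 * ((e : ℝ) - 3) / ((e : ℝ) - 1) * ∑ x, (dg H x : ℝ) ^ 2 := by ring
    rw [h5]
    linarith
  have hcod' : ∀ x y : Fin n, x ≠ y → (codeg H x y : ℝ) ≤ c * (dg H x + dg H y) + C' := by
    intro x y hxy
    have h1 := hcod x y hxy
    have h2 : (codeg H x y : ℝ) ≤ (((e : ℝ) - 2) * (dg H x + dg H y) + C') / ((e : ℝ) - 1) := by
      rw [le_div_iff₀ he1]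
      have := le_abs_self C
      linarith
    refine h2.trans ?_
    rw [add_div, hc]
    have h3 : C' / ((e : ℝ) - 1) ≤ C' := div_le_self hC'0 (by linarith)
    have h5 : (((e : ℝ) - 2) * ((dg H x : ℝ) + dg H y)) / ((e : ℝ) - 1) =
      ((e : ℝ) - 2) / ((e : ℝ) - 1) * ((dg H x : ℝ) + dg H y) := by ring
    rw [h5]
    linarith
  have hmain := fin_main hr hL π hc0 hα0 hC'0 hX' hcod' A a hA' ha'
  rw [Fintype.card_fin] at hmain
  set Y : ℝ := ∑ x, fin_av π (fun y => (dg H y : ℝ)) x ^ 2 with hY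
  have hY1 : ((r : ℝ) * H.card) ^ 2 ≤ (n : ℝ) * Y := by
    have h1 : ∑ x, fin_av π (fun y => (dg H y : ℝ)) x = (r : ℝ) * H.card := by
      rw [fin_sum_av]
      have h2 := fin_sum_inc H (fun _ => (1 : ℝ))
      simp only [mul_one] at h2
      rw [← h2]
      have h3 : ∀ A ∈ H, ∑ _x ∈ A, (1 : ℝ) = r := by
        intro A hA
        rw [sum_const, hL.unif A hA]; simp
      rw [sum_congr rfl h3, sum_const, nsmul_eq_mul, mul_comm]
    have h4 := sq_sum_le_card_mul_sum_sq (s := (univ : Finset (Fin n)))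
      (f := fun x => fin_av π (fun y => (dg H y : ℝ)) x)
    rw [card_univ, Fintype.card_fin] at h4
    rw [← h1]
    exact h4
  have hK : α + 2 * c = (5 * (e : ℝ) - 13) / ((e : ℝ) - 1) := by
    rw [hα, hc]; field_simp; ring
  have hfin := fin_num (K := α + 2 * c) hr3 hnR hY1 (by positivity) hε ?_
  · rw [hK] at hfin
    have e1 : (5 * (e : ℝ) - 13) / ((e : ℝ) - 1) / ((r : ℝ) ^ 2 * ((r : ℝ) - 1) ^ 2) =
        (5 * (e : ℝ) - 13) / (((e : ℝ) - 1) * (r : ℝ) ^ 2 * ((r : ℝ) - 1) ^ 2) := by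
      rw [div_div]; congr 1; ring
    rw [e1] at hfin
    exact hfin
  · refine hmain.trans (mul_le_mul_of_nonneg_left ?_ (by positivity))
    have h1 : (Fintype.card (Fin k → Bool) : ℝ) = (2 : ℝ) ^ k := by simp
    rw [h1]
    have h2 : (α + 2) * ((n : ℝ) ^ 3 * s) ≤ ε ^ 3 / 2 * (n : ℝ) ^ 3 := by
      have h3 : (α + 2) * s ≤ 5 * (ε ^ 3 / 10) :=
        mul_le_mul (by linarith) hsle hs0 (by norm_num)
      have h4 : (0 : ℝ) ≤ (n : ℝ) ^ 3 := by positivity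
      have h5 := mul_le_mul_of_nonneg_right h3 h4
      nlinarith
    have h3 : (2 * C' + (2 : ℝ) ^ k) * (n : ℝ) ^ 2 ≤ ε ^ 3 / 2 * (n : ℝ) ^ 3 := by
      have h4 := mul_le_mul_of_nonneg_right hMn (by positivity : (0 : ℝ) ≤ (n : ℝ) ^ 2)
      rw [hM] at h4
      nlinarith
    linarith

end Pool.Agent.Helper71.QU
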