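import Mathlib
import Pool.Agent.Helper71.QU.Defs

/-!
# QU, module TRI: cherries, triangles and the shadow graph
-/

set_option autoImplicit false

namespace Pool.Agent.Helper71.QU

open Finset

variable {V : Type*} [DecidableEq V]

lemma tri_mem_cherries {H : Finset (Finset V)} {A B : Finset V} :
    (A, B) ∈ cherries H ↔ (A ∈ H ∧ B ∈ H) ∧ Meets A B := by
  classical
  unfold cherries
  rw [mem_filter, mem_product]

lemma tri_mem_thirds {H : Finset (Finset V)} {A B C : Finset V} :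
    C ∈ thirds H (A, B) ↔ C ∈ H ∧ Tri A B C := by
  classical
  unfold thirds
  rw [mem_filter]

lemma tri_eq {r : ℕ} {H : Finset (Finset V)} (hL : Lin r H) {A B : Finset V} (hA : A ∈ H)
    (hB : B ∈ H) (hAB : A ≠ B) {x y : V} (hx : x ∈ A ∩ B) (hy : y ∈ A ∩ B) : x = y :=
  card_le_one.mp (hL.lin A hA B hB hAB) x hx y hy

lemma cherries_card_le [Fintype V] {r : ℕ} {H : Finset (Finset V)} (hL : Lin r H) :
    (cherries H).card ≤ ∑ x : V, dg H x ^ 2 := by
  have _ := hL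
  have h1 : cherries H ⊆ (univ : Finset V).biUnion fun x =>
      (H.filter fun A => x ∈ A) ×ˢ (H.filter fun A => x ∈ A) := by
    rintro ⟨A, B⟩ h
    obtain ⟨⟨hA, hB⟩, -, x, hx⟩ := tri_mem_cherries.mp h
    rw [mem_inter] at hx
    rw [mem_biUnion]
    exact ⟨x, mem_univ x, mem_product.mpr ⟨mem_filter.mpr ⟨hA, hx.1⟩, mem_filter.mpr ⟨hB, hx.2⟩⟩⟩
  refine (card_le_card h1).trans (card_biUnion_le.trans (le_of_eq ?_))
  refine sum_congr rfl fun x _ => ?_
  rw [card_product, dg, sq]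

lemma card_le_sq [Fintype V] {r : ℕ} {H : Finset (Finset V)} (hr : 3 ≤ r) (hL : Lin r H) :
    H.card ≤ Fintype.card V ^ 2 := by
  classical
  rcases H.eq_empty_or_nonempty with rfl | ⟨A0, hA0⟩
  · simp
  have h0 : 0 < A0.card := by rw [hL.unif A0 hA0]; omega
  obtain ⟨x0, -⟩ := card_pos.mp h0
  have h1 : ∀ A : Finset V, ∃ p : V × V, A ∈ H → p.1 ∈ A ∧ p.2 ∈ A ∧ p.1 ≠ p.2 := by
    intro A
    by_cases hA : A ∈ H
    · have h2 : 1 < A.card := by rw [hL.unif A hA]; omega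
      obtain ⟨x, hx, y, hy, hxy⟩ := one_lt_card.mp h2
      exact ⟨(x, y), fun _ => ⟨hx, hy, hxy⟩⟩
    · exact ⟨(x0, x0), fun h => absurd h hA⟩
  choose g hg using h1
  have h2 : H.card ≤ (univ : Finset (V × V)).card := by
    refine card_le_card_of_injOn g (fun _ _ => mem_univ _) ?_
    intro A hA B hB hAB
    by_contra hne
    have h3 := hg A hA
    have h4 := hg B hB
    rw [← hAB] at h4
    exact h3.2.2 (tri_eq hL hA hB hne (mem_inter.mpr ⟨h3.1, h4.1⟩) (mem_inter.mpr ⟨h3.2.1, h4.2.1⟩))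
  rw [card_univ, Fintype.card_prod, ← sq] at h2
  exact h2

lemma X3_le [Fintype V] {r : ℕ} {H : Finset (Finset V)} (hr : 3 ≤ r) (hL : Lin r H) :
    X3 H ≤ ∑ p ∈ cherries H, (thirds H p).card + r ^ 3 * H.card := by
  classical
  have _ := hr
  set T1 : Finset (V × V × V) := H.biUnion fun A => A ×ˢ (A ×ˢ A) with hT1
  set T2 : Finset (V × V × V) := (cherries H).biUnion fun p => (thirds H p).biUnion fun C =>
    (p.1 ∩ C) ×ˢ ((p.1 ∩ p.2) ×ˢ (p.2 ∩ C)) with hT2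
  have h1 : (univ.filter (fun t : V × V × V => Adj H t.1 t.2.1 ∧ Adj H t.1 t.2.2 ∧
      Adj H t.2.1 t.2.2)) ⊆ T2 ∪ T1 := by
    rintro ⟨x, y, z⟩ ht
    obtain ⟨-, ⟨hxy, A, hA, hxA, hyA⟩, ⟨hxz, C, hC, hxC, hzC⟩, ⟨hyz, B, hB, hyB, hzB⟩⟩ :=
      mem_filter.mp ht
    simp only at hxy hxA hyA hxz hxC hzC hyz hyB hzB
    have hin : ∀ A ∈ H, x ∈ A → y ∈ A → z ∈ A → (x, y, z) ∈ T2 ∪ T1 := by
      intro A hA hx hy hz
      refine mem_union_right _ (mem_biUnion.mpr ⟨A, hA, ?_⟩)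
      exact mem_product.mpr ⟨hx, mem_product.mpr ⟨hy, hz⟩⟩
    by_cases hAB : A = B
    · subst hAB
      exact hin A hA hxA hyA hzB
    by_cases hAC : A = C
    · subst hAC
      exact hin A hA hxA hyA hzC
    by_cases hBC : B = C
    · subst hBC
      exact hin B hB hxC hyB hzB
    have hemp : A ∩ B ∩ C = ∅ := by
      rw [eq_empty_iff_forall_notMem]
      intro w hw
      rw [mem_inter, mem_inter] at hw
      have e1 : w = y := tri_eq hL hA hB hAB (mem_inter.mpr hw.1) (mem_inter.mpr ⟨hyA, hyB⟩)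
      have e2 : w = z := tri_eq hL hB hC hBC (mem_inter.mpr ⟨hw.1.2, hw.2⟩)
        (mem_inter.mpr ⟨hzB, hzC⟩)
      exact hyz (e1.symm.trans e2)
    have m1 : Meets A B := ⟨hAB, y, mem_inter.mpr ⟨hyA, hyB⟩⟩
    have m2 : Meets B C := ⟨hBC, z, mem_inter.mpr ⟨hzB, hzC⟩⟩
    have m3 : Meets A C := ⟨hAC, x, mem_inter.mpr ⟨hxA, hxC⟩⟩
    refine mem_union_left _ (mem_biUnion.mpr ⟨(A, B), tri_mem_cherries.mpr ⟨⟨hA, hB⟩, m1⟩, ?_⟩)
    refine mem_biUnion.mpr ⟨C, tri_mem_thirds.mpr ⟨hC, m1, m2, m3, hemp⟩, ?_⟩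
    exact mem_product.mpr ⟨mem_inter.mpr ⟨hxA, hxC⟩, mem_product.mpr
      ⟨mem_inter.mpr ⟨hyA, hyB⟩, mem_inter.mpr ⟨hzB, hzC⟩⟩⟩
  have h2 : T2.card ≤ ∑ p ∈ cherries H, (thirds H p).card := by
    refine card_biUnion_le.trans (sum_le_sum fun p hp => ?_)
    refine card_biUnion_le.trans ?_
    rw [card_eq_sum_ones]
    refine sum_le_sum fun C hC => ?_
    obtain ⟨A, B⟩ := p
    obtain ⟨⟨hA, hB⟩, -⟩ := tri_mem_cherries.mp hp
    obtain ⟨hCH, m1, m2, m3, -⟩ := tri_mem_thirds.mp hC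
    rw [card_product, card_product]
    have e1 := hL.lin A hA C hCH m3.1
    have e2 := hL.lin A hA B hB m1.1
    have e3 := hL.lin B hB C hCH m2.1
    calc (A ∩ C).card * ((A ∩ B).card * (B ∩ C).card) ≤ 1 * (1 * 1) :=
          Nat.mul_le_mul e1 (Nat.mul_le_mul e2 e3)
      _ = 1 := rfl
  have h3 : T1.card ≤ r ^ 3 * H.card := by
    refine card_biUnion_le.trans ?_
    rw [mul_comm, ← smul_eq_mul, ← sum_const]
    refine sum_le_sum fun A hA => ?_
    rw [card_product, card_product, hL.unif A hA]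
    exact le_of_eq (by ring)
  unfold X3
  refine (card_le_card h1).trans ((card_union_le _ _).trans ?_)
  exact add_le_add h2 h3

end Pool.Agent.Helper71.QU
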