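import Mathlib
import Pool.Agent.Helper71.QU.DEL
import Pool.Agent.Helper71.QU.BAD
import Pool.Agent.Helper71.QU.TRI
import Pool.Agent.Helper71.QU.CODEG
import Pool.Agent.Helper71.QU.FIN

/-!
# The density bound
-/

set_option autoImplicit false

namespace Pool.Agent.Helper71.QU

open Finset

/-- Linear `r`-graphs without `e` edges on at most `(r - 2) e + 3` vertices. -/
theorem density_bound (r e : ℕ) (hr : 3 ≤ r) (he : 3 ≤ e) (ε : ℝ) (hε : 0 < ε) :
    ∃ n₀ : ℕ, ∀ n ≥ n₀, ∀ H : Finset (Finset (Fin n)), Lin r H → Free r e H →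
      (H.card : ℝ) ≤
        ((5 * (e : ℝ) - 13) / (((e : ℝ) - 1) * (r : ℝ) ^ 2 * ((r : ℝ) - 1) ^ 2) + ε) *
          (n : ℝ) ^ 2 := by
  have he3 : (3 : ℝ) ≤ e := by exact_mod_cast he
  have hr3 : (3 : ℝ) ≤ r := by exact_mod_cast hr
  set C : ℝ := (e : ℝ) ^ 3 * (1 + (r : ℝ) ^ 3) + (e : ℝ) * (r : ℝ) ^ 3 + (e : ℝ) * r with hC
  obtain ⟨n₁, hn₁⟩ := fin_bound r e hr he C (ε / 2) (by positivity)
  set D : ℝ := ((r : ℝ) * e + 2) * e with hD
  have hD0 : 0 ≤ D := by positivity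
  refine ⟨max n₁ (⌈D / (ε / 2)⌉₊ + 1), ?_⟩
  intro n hn H hL hF
  have hn1 : n₁ ≤ n := le_trans (le_max_left _ _) hn
  have hn2 : ⌈D / (ε / 2)⌉₊ + 1 ≤ n := le_trans (le_max_right _ _) hn
  have hn0 : 0 < n := by omega
  have hnR : (0 : ℝ) < n := by exact_mod_cast hn0
  obtain ⟨H', hH', hM, hcard⟩ := deletion hr hL hF
  rw [Fintype.card_fin] at hcard
  have hL' := hL.mono hH'
  have hF' := hF.mono hH'
  have h1 := hn₁ n hn1 H' hL' ?_ ?_
  · have h2 : (H.card : ℝ) ≤ H'.card + D * n := by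
      have : (H.card : ℝ) ≤ ((H'.card + (r * e + 2) * (e * n) : ℕ) : ℝ) := by exact_mod_cast hcard
      push_cast at this
      rw [hD]
      linarith
    have h3 : D * n ≤ ε / 2 * (n : ℝ) ^ 2 := by
      have h4 : D / (ε / 2) ≤ (n : ℝ) := by
        have h5 : ((⌈D / (ε / 2)⌉₊ + 1 : ℕ) : ℝ) ≤ n := by exact_mod_cast hn2
        push_cast at h5
        linarith [Nat.le_ceil (D / (ε / 2))]
      rw [div_le_iff₀ (by positivity)] at h4
      nlinarith
    calc (H.card : ℝ) ≤ H'.card + D * n := h2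
      _ ≤ _ := by nlinarith
  · have hs := tri_sum hr he hL' hF' hM
    have hc := cherries_card_le hL'
    have hq := card_le_sq hr hL'
    have hx := X3_le hr hL'
    rw [Fintype.card_fin] at hq
    have hsR : ((e : ℝ) - 1) * ∑ p ∈ cherries H', ((thirds H' p).card : ℝ) ≤
        3 * ((e : ℝ) - 3) * (cherries H').card + (e : ℝ) ^ 3 * H'.card := by
      have := hs
      exact_mod_cast this
    have hcR : ((cherries H').card : ℝ) ≤ ∑ x : Fin n, (dg H' x : ℝ) ^ 2 := by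
      exact_mod_cast hc
    have hqR : (H'.card : ℝ) ≤ (n : ℝ) ^ 2 := by exact_mod_cast hq
    have hxR : (X3 H' : ℝ) ≤ ∑ p ∈ cherries H', ((thirds H' p).card : ℝ) +
        (r : ℝ) ^ 3 * H'.card := by
      exact_mod_cast hx
    have e1 : (0 : ℝ) ≤ (e : ℝ) - 1 := by linarith
    have e3 : (0 : ℝ) ≤ 3 * ((e : ℝ) - 3) := by linarith
    have a1 := mul_le_mul_of_nonneg_left hxR e1
    have a2 := mul_le_mul_of_nonneg_left hcR e3
    have a3 : ((e : ℝ) ^ 3 + ((e : ℝ) - 1) * (r : ℝ) ^ 3) * H'.card ≤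
        ((e : ℝ) ^ 3 + ((e : ℝ) - 1) * (r : ℝ) ^ 3) * (n : ℝ) ^ 2 :=
      mul_le_mul_of_nonneg_left hqR (by positivity)
    have a4 : ((e : ℝ) ^ 3 + ((e : ℝ) - 1) * (r : ℝ) ^ 3) ≤ C := by
      rw [hC]
      have b1 : 0 ≤ (e : ℝ) ^ 3 * (r : ℝ) ^ 3 := by positivity
      have b2 : 0 ≤ (r : ℝ) ^ 3 := by positivity
      have b3 : 0 ≤ (e : ℝ) * r := by positivity
      nlinarith
    have a5 := mul_le_mul_of_nonneg_right a4 (by positivity : (0 : ℝ) ≤ (n : ℝ) ^ 2)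
    nlinarith
  · intro x y hxy
    have hc := codeg_le hr he hL' hF' hxy
    have hcR : (((e - 1 : ℕ) : ℝ)) * codeg H' x y ≤
        (((e - 2 : ℕ) : ℝ)) * (dg H' x + dg H' y) + ((e : ℝ) ^ 3 + (e : ℝ) * r) := by
      exact_mod_cast hc
    rw [Nat.cast_sub (by omega), Nat.cast_sub (by omega)] at hcR
    push_cast at hcR
    have b1 : (e : ℝ) ^ 3 + (e : ℝ) * r ≤ C := by
      rw [hC]
      have b2 : 0 ≤ (e : ℝ) ^ 3 * (r : ℝ) ^ 3 := by positivity
      have b3 : 0 ≤ (e : ℝ) * (r : ℝ) ^ 3 := by positivity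
      nlinarith
    linarith

end Pool.Agent.Helper71.QU
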